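import Pool.Agent.Helper54.HZ.Cover
import Pool.Agent.Helper54.HZ.Ord
import Pool.Agent.Helper22.HB.Defs

/-!
MP_143e28_ag, project HE (helper22): the two descriptions of a hyperelliptic curve in characteristic 2.

`pol f.num f.denom P` is `0` if `ordP P f ≥ 0` and `- ordP P f` otherwise (`ordP_infty`, `ordP_coe`; `num` and `denom` are coprime: `denom (a) = 0`
gives `num (a) ≠ 0`, `RatFunc.isCoprime_num_denom`).  `y ^ 2 - y = y ^ 2 + y` in characteristic 2 (`CharTwo`, or `(2 : F) = 0`);
`aeval x denom ≠ 0` as `x` is transcendental.  The sums over the poles: `finsum_mem_def` / `finsum_eq_sum_of_support_subset`, all terms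
`1 - ordP = pol + 1`; cast from `ℕ` to `ℤ`.
`as_of_pres2`: `f = X ^ (2 g + 1)`: `num = X ^ (2 g + 1)`, `denom = 1` (`RatFunc.num_algebraMap`, `RatFunc.denom_algebraMap`); the only pole is
`∞`, of order `2 g + 1`.
-/

set_option autoImplicit false

namespace Pool.Agent.Helper22.HE

open Polynomial OnePoint Pool.Agent.Helper54.HZ Pool.Agent.Helper22.HB

variable {k F : Type*} [Field k] [Field F] [Algebra k F]

theorem Bridge_pol (f : RatFunc k) (P : OnePoint k) :
    (pol f.num f.denom P ≠ 0 ↔ ordP P f < 0) ∧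
      (pol f.num f.denom P ≠ 0 → (pol f.num f.denom P : ℤ) = -ordP P f) := by
  induction P using OnePoint.rec with
  | infty =>
    have h1 : pol f.num f.denom (∞ : OnePoint k) = f.num.natDegree - f.denom.natDegree := rfl
    rw [h1, ordP_infty]
    refine ⟨?_, ?_⟩ <;> omega
  | coe a =>
    have h1 : pol f.num f.denom (a : OnePoint k) = f.denom.rootMultiplicity a := rfl
    rw [h1, ordP_coe]
    by_cases h : f.denom.rootMultiplicity a = 0
    · rw [h]
      refine ⟨?_, ?_⟩ <;> omega
    · have hd : f.denom.IsRoot a :=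
        (rootMultiplicity_pos (RatFunc.denom_ne_zero f)).1 (Nat.pos_of_ne_zero h)
      have hn : f.num.rootMultiplicity a = 0 := by
        apply rootMultiplicity_eq_zero
        intro hn
        obtain ⟨u, v, huv⟩ := RatFunc.isCoprime_num_denom f
        have h2 := congrArg (eval a) huv
        rw [eval_add, eval_mul, eval_mul, hn.eq_zero, hd.eq_zero, eval_one, mul_zero, mul_zero,
          add_zero] at h2
        exact zero_ne_one h2
      rw [hn]
      refine ⟨?_, ?_⟩ <;> omega

theorem Bridge_sum (f : RatFunc k) :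
    (∑ᶠ P ∈ {P : OnePoint k | ordP P f < 0}, (1 - ordP P f)) =
      ((∑ᶠ P : OnePoint k, (if pol f.num f.denom P = 0 then 0 else pol f.num f.denom P + 1) : ℕ) : ℤ) := by
  have h1 := AddMonoidHom.map_finsum_of_injective (Nat.castAddMonoidHom ℤ)
    (fun a b h => by simpa using h)
    (fun P : OnePoint k => if pol f.num f.denom P = 0 then 0 else pol f.num f.denom P + 1)
  rw [Nat.coe_castAddMonoidHom] at h1
  rw [h1]
  refine finsum_congr fun P => ?_
  obtain ⟨h2, h3⟩ := Bridge_pol f P
  by_cases h : pol f.num f.denom P = 0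
  · rw [if_pos h, Nat.cast_zero]
    have h4 : ¬ (P ∈ {P : OnePoint k | ordP P f < 0}) := by
      intro h5
      exact h2.2 h5 h
    have h6 : IsEmpty (P ∈ {P : OnePoint k | ordP P f < 0}) := ⟨h4⟩
    exact finsum_of_isEmpty _
  · have h4 : P ∈ {P : OnePoint k | ordP P f < 0} := h2.1 h
    rw [if_neg h, Nat.cast_add, Nat.cast_one, h3 h]
    have h5 : (∑ᶠ (_ : P ∈ {P : OnePoint k | ordP P f < 0}), (1 - ordP P f)) = 1 - ordP P f := by
      have h6 : Unique (P ∈ {P : OnePoint k | ordP P f < 0}) := ⟨⟨h4⟩, fun _ => rfl⟩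
      exact finsum_unique _
    rw [h5]
    ring

theorem Bridge_two [CharP k 2] (F : Type*) [Field F] [Algebra k F] : (2 : F) = 0 := by
  have h : (2 : k) = 0 := by
    have := CharP.cast_eq_zero k 2
    exact_mod_cast this
  have h1 := congrArg (algebraMap k F) h
  rwa [map_ofNat, map_zero] at h1

theorem pres2_of_as [CharP k 2] {g : ℕ} {x y : F} {f : RatFunc k} (h : PresAS k F 2 g x y f) :
    Pres2 k F g x y f.num f.denom := by
  have h2 : (2 : F) = 0 := Bridge_two (k := k) F
  refine ⟨h.trans, h.gen, RatFunc.isCoprime_num_denom f, RatFunc.denom_ne_zero f, ?_, ?_, ?_⟩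
  · intro P hP
    obtain ⟨h3, h4⟩ := Bridge_pol f P
    have h5 := h.poles P (h3.1 hP)
    have h6 := h4 hP
    rw [← Nat.not_even_iff_odd]
    intro h7
    apply h5
    obtain ⟨r, hr⟩ := h7
    refine ⟨-(r : ℤ), ?_⟩
    rw [hr] at h6
    push_cast at h6 ⊢
    linarith
  · have h3 := h.genus
    rw [Bridge_sum] at h3
    push_cast at h3
    have h4 : ((∑ᶠ P : OnePoint k, (if pol f.num f.denom P = 0 then 0 else pol f.num f.denom P + 1) : ℕ) : ℤ)
        = ((2 * g + 2 : ℕ) : ℤ) := by
      push_cast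
      linarith
    exact_mod_cast h4
  · have h3 : aeval x f.denom ≠ 0 := by
      intro h4
      exact RatFunc.denom_ne_zero f ((transcendental_iff.1 h.trans) _ h4)
    have h4 := h.eqn
    rw [eq_div_iff h3] at h4
    rw [← h4]
    have h5 : y ^ 2 + y = y ^ 2 - y := by linear_combination y * h2
    rw [h5, mul_comm]

theorem as_of_pres2 [CharP k 2] {g : ℕ} {x y : F} (h : Pres2 k F g x y (X ^ (2 * g + 1) : k[X]) 1) :
    PresAS k F 2 g x y (algebraMap k[X] (RatFunc k) (X ^ (2 * g + 1))) := by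
  have h2 : (2 : F) = 0 := Bridge_two (k := k) F
  have hnum : (algebraMap k[X] (RatFunc k) (X ^ (2 * g + 1))).num = X ^ (2 * g + 1) :=
    RatFunc.num_algebraMap _
  have hden : (algebraMap k[X] (RatFunc k) (X ^ (2 * g + 1))).denom = 1 :=
    RatFunc.denom_algebraMap _
  refine ⟨h.trans, h.gen, ?_, ?_, ?_⟩
  · intro P hP
    obtain ⟨h3, h4⟩ := Bridge_pol (algebraMap k[X] (RatFunc k) (X ^ (2 * g + 1))) P
    have h5 := h3.2 hP
    have h6 := h4 h5
    rw [hnum, hden] at h5 h6
    have h7 := h.odd P h5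
    intro h8
    have h9 : (2 : ℤ) ∣ (pol (X ^ (2 * g + 1) : k[X]) 1 P : ℤ) := by
      rw [h6]
      exact (dvd_neg).2 h8
    have h10 : 2 ∣ pol (X ^ (2 * g + 1) : k[X]) 1 P := by exact_mod_cast h9
    obtain ⟨r, hr⟩ := h7
    omega
  · rw [hnum, hden]
    have h3 := h.eqn
    rw [map_one, one_mul] at h3
    rw [map_one, div_one, ← h3]
    linear_combination (-y) * h2
  · rw [Bridge_sum, hnum, hden, h.genus]
    push_cast
    ring

end Pool.Agent.Helper22.HE
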