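import Pool.Agent.Helper22.HE.Struct

/-!
MP_143e28_ag, project HE (helper22): the bound for the group of a cyclic cover in characteristic 2 with `n ∣ #B - 2`.

`uni_trans`: `one_wild` (`Helper22.HB.Wild`) for the group `H`.
`exp_bound`: `mob_finite` (`Helper28.HA.B6`): `G` is finite.  If a point of `B` has the trivial stabilizer: `#G = #orb ≤ #B` (`card_orb_mul`).
Otherwise, if there is no `s ≠ 1` in any `uni G P`: `tame_struct` gives `#B ≤ 2`.  So let `P0` have `s ≠ 1` in `uni G P0`, `W = orb G P0`,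
`wild_struct`: `q`, `a = #W` odd.  `B` is a union of orbits; a point of `B` outside `W` has the orbit `T` with `#T = (q - 2) a + 2`, even, and
all points of `B` outside `W` are in `T`.  So `B = W`, `T` or `W ∪ T`.  `B = T` is impossible (`#B` odd).  So `W ⊆ B`.
Let `H = {s ∈ G : n ∣ e (s Q) - e Q for all Q}` (a subgroup).  If `s ∈ G` fixes a point `P ∈ W`: `n ∣ (1 - j) e P`, so `j = 1` modulo `n`, `s ∈ H`.
So `stab G P ⊆ H` for `P ∈ W`, and `uni_trans`: `H` is transitive on `W`; so `G = H` (`s P = h P`, `h⁻¹ s ∈ stab G P ⊆ H`), and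
`e` is constant modulo `n` on every orbit of `G`.  `B = W`: `hsum`: `n ∣ a * e P`, so `n ∣ a = #B`, `n ∣ 2`, no.  `B = W ∪ T`:
`#B - 2 = (q - 1) a`; `q = 2`: `#T = 2`, `n ∣ a`, `hsum`: `n ∣ a e_W + 2 e_T`, `n ∣ 2 e_T`, no.  `a = 1`: `#B = q + 1`; `a = q + 1`:
`#B = q ^ 2 + 1`, powers of 2 plus 1.
-/

set_option autoImplicit false

namespace Pool.Agent.Helper22.HE

open Polynomial OnePoint Pool.Agent.Helper28.HA Pool.Agent.Helper22.HB

variable {k : Type*} [Field k]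

theorem uni_trans [IsAlgClosed k] (G H : Subgroup (Equiv.Perm (OnePoint k))) [Finite G] (hG : MobGroup G)
    (hHG : H ≤ G) {P Q : OnePoint k} (hP : ∃ s ∈ uni G P, s ≠ 1) (hQ : ∃ s ∈ uni G Q, s ≠ 1)
    (h1 : ∀ s ∈ uni G P, s ∈ H) (h2 : ∀ s ∈ uni G Q, s ∈ H) : Q ∈ orb H P := by
  haveI : Finite H :=
    ((Set.toFinite (G : Set (Equiv.Perm (OnePoint k)))).subset fun s hs => hHG hs).to_subtype
  obtain ⟨s, hs, hs1⟩ := hP
  obtain ⟨t, ht, ht1⟩ := hQ
  exact one_wild H (fun s hs => hG s (hHG hs)) ⟨s, ⟨h1 s hs, hs.2⟩, hs1⟩ ⟨t, ⟨h2 t ht, ht.2⟩, ht1⟩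

omit [Field k] in
private theorem ExpB_sum {n : ℕ} (e : OnePoint k → ℤ) (c : ℤ) (S : Set (OnePoint k)) (hS : S.Finite)
    (h : ∀ P ∈ S, (n : ℤ) ∣ e P - c) :
    (n : ℤ) ∣ ∑ P ∈ hS.toFinset, e P - (Nat.card S : ℤ) * c := by
  have h1 : ∑ P ∈ hS.toFinset, e P - (Nat.card S : ℤ) * c = ∑ P ∈ hS.toFinset, (e P - c) := by
    rw [Finset.sum_sub_distrib, Finset.sum_const, nsmul_eq_mul, Nat.card_coe_set_eq,
      Set.ncard_eq_toFinset_card S hS]
  rw [h1]
  exact Finset.dvd_sum fun P hP => h P (hS.mem_toFinset.1 hP)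

/-- the elements of `G` which preserve `e` modulo `n` -/
private def ExpB_H (G : Subgroup (Equiv.Perm (OnePoint k))) (e : OnePoint k → ℤ) (n : ℕ) :
    Subgroup (Equiv.Perm (OnePoint k)) where
  carrier := {s | s ∈ G ∧ ∀ Q, (n : ℤ) ∣ e (s Q) - e Q}
  one_mem' := ⟨G.one_mem, fun Q => by simp⟩
  mul_mem' := by
    rintro s t ⟨hs, hs'⟩ ⟨ht, ht'⟩
    refine ⟨G.mul_mem hs ht, fun Q => ?_⟩
    have h := dvd_add (hs' (t Q)) (ht' Q)
    have e1 : e (s (t Q)) - e (t Q) + (e (t Q) - e Q) = e ((s * t) Q) - e Q := by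
      rw [Equiv.Perm.mul_apply]
      ring
    rwa [e1] at h
  inv_mem' := by
    rintro s ⟨hs, hs'⟩
    refine ⟨G.inv_mem hs, fun Q => ?_⟩
    have h := hs' (s⁻¹ Q)
    have e1 : s (s⁻¹ Q) = Q := by simp
    rw [e1] at h
    rwa [← dvd_neg, neg_sub] at h

theorem exp_bound [IsAlgClosed k] [CharP k 2] {n : ℕ} (hn : n.Prime) (hn2 : n ≠ 2)
    (G : Subgroup (Equiv.Perm (OnePoint k))) (hG : MobGroup G) (B : Set (OnePoint k)) (hB : B.Finite)
    (hGB : ∀ s ∈ G, ∀ P ∈ B, s P ∈ B) (e : OnePoint k → ℤ) (he : ∀ P ∈ B, ¬ (n : ℤ) ∣ e P)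
    (hj : ∀ s ∈ G, ∃ j : ℤ, ¬ (n : ℤ) ∣ j ∧ ∀ P, (n : ℤ) ∣ e (s P) - j * e P)
    (hsum : (n : ℤ) ∣ ∑ P ∈ hB.toFinset, e P) (hodd : Odd (Nat.card B)) (h3 : 3 ≤ Nat.card B)
    (hnB : n ∣ Nat.card B - 2) :
    Finite G ∧ (Nat.card G ≤ Nat.card B ∨ ∃ i, Nat.card B = 2 ^ i + 1) := by
  classical
  have hfin : Finite G := (mob_finite G hG B hB h3 hGB).1
  refine ⟨hfin, ?_⟩
  have hnZ : Prime (n : ℤ) := Nat.prime_iff_prime_int.1 hn
  have hn2' : ¬ (n : ℤ) ∣ 2 := by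
    intro h
    have h' : n ∣ 2 := by exact_mod_cast h
    exact hn2 ((Nat.prime_dvd_prime_iff_eq hn Nat.prime_two).1 h')
  have horb : ∀ Q ∈ B, orb G Q ⊆ B := by
    rintro Q hQ _ ⟨s, hs, rfl⟩
    exact hGB s hs Q hQ
  by_cases hst : ∀ Q ∈ B, 2 ≤ Nat.card (stab G Q)
  swap
  · -- a point with trivial stabilizer
    left
    push Not at hst
    obtain ⟨Q, hQB, hQ⟩ := hst
    have h1 := (card_orb_mul G Q).2
    have h2 : Nat.card (orb G Q) ≤ Nat.card B := by
      rw [Nat.card_coe_set_eq, Nat.card_coe_set_eq]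
      exact Set.ncard_le_ncard (horb Q hQB) hB
    calc Nat.card G = Nat.card (orb G Q) * Nat.card (stab G Q) := h1.symm
      _ ≤ Nat.card (orb G Q) * 1 := Nat.mul_le_mul_left _ (by omega)
      _ ≤ Nat.card B := by rw [mul_one]; exact h2
  -- there is a parabolic element
  obtain ⟨P0, hP0⟩ : ∃ P0, ∃ s ∈ uni G P0, s ≠ 1 := by
    by_contra hno
    push Not at hno
    have := (tame_struct G hG hno B hst).2
    omega
  obtain ⟨q, a, hq, ha, hq2, ⟨j, hqj⟩, haodd, hcase, hout⟩ := wild_struct G hG hP0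
  have hj0 : 1 ≤ j := by
    by_contra h0
    have h00 : j = 0 := by omega
    rw [h00, pow_zero] at hqj
    omega
  have hqe : 2 ∣ q := by
    rw [hqj]
    exact dvd_pow_self 2 (by omega)
  obtain ⟨r, hr⟩ := hqe
  have hBne : ∃ Q, Q ∈ B := by
    by_contra hno
    push Not at hno
    have h0 : B = ∅ := Set.eq_empty_iff_forall_notMem.2 hno
    rw [h0] at h3
    simp at h3
  -- `P0 ∈ B`
  have hPB : P0 ∈ B := by
    by_contra hPB
    obtain ⟨Q, hQB⟩ := hBne
    have hnot : ∀ Q ∈ B, Q ∉ orb G P0 := by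
      intro Q hQ hQ'
      exact hPB (horb Q hQ (B6_orb_symm G hQ'))
    obtain ⟨h1, h2⟩ := hout Q (hst Q hQB) (hnot Q hQB)
    have h4 : B = orb G Q :=
      Set.Subset.antisymm (fun Q' hQ' => h2 Q' (hst Q' hQ') (hnot Q' hQ')) (horb Q hQB)
    rw [h4, h1, hr] at hodd
    obtain ⟨m, hm⟩ := hodd
    have h5 : (2 * r - 2) * a = 2 * ((r - 1) * a) := by
      rw [← mul_assoc]
      congr 1
      omega
    omega
  have hWB : orb G P0 ⊆ B := horb P0 hPB
  -- `e` is constant modulo `n` on the orbits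
  have hstabH : ∀ P ∈ B, ∀ s ∈ stab G P, s ∈ ExpB_H G e n := by
    rintro P hP s ⟨hs, hsP⟩
    obtain ⟨i, -, hi⟩ := hj s hs
    have h1 := hi P
    rw [hsP] at h1
    have h2 : (n : ℤ) ∣ (1 - i) * e P := by
      have e1 : e P - i * e P = (1 - i) * e P := by ring
      rwa [e1] at h1
    have h4 : (n : ℤ) ∣ 1 - i := (hnZ.dvd_or_dvd h2).resolve_right (he P hP)
    refine ⟨hs, fun Q => ?_⟩
    have h5 := dvd_sub (hi Q) (h4.mul_right (e Q))
    have e1 : e (s Q) - i * e Q - (1 - i) * e Q = e (s Q) - e Q := by ring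
    rwa [e1] at h5
  have hGH : ∀ s ∈ G, ∀ Q, (n : ℤ) ∣ e (s Q) - e Q := by
    intro s hs
    have h1 : s P0 ∈ orb G P0 := ⟨s, hs, rfl⟩
    obtain ⟨t, ht, hts⟩ := uni_trans G (ExpB_H G e n) hG (fun t ht => ht.1) hP0 (Wild_conj G h1 hP0)
      (fun t ht => hstabH P0 hPB t (B6_uni_subset G P0 ht))
      (fun t ht => hstabH (s P0) (hWB h1) t (B6_uni_subset G _ ht))
    have h2 : t⁻¹ * s ∈ ExpB_H G e n := by
      refine hstabH P0 hPB _ ⟨G.mul_mem (G.inv_mem ht.1) hs, ?_⟩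
      show t⁻¹ (s P0) = P0
      rw [← hts]
      exact B6_inv_apply t P0
    have h4 : s ∈ ExpB_H G e n := by
      have := (ExpB_H G e n).mul_mem ht h2
      rwa [mul_inv_cancel_left] at this
    exact h4.2
  have hconst : ∀ Q, ∀ Q' ∈ orb G Q, (n : ℤ) ∣ e Q' - e Q := by
    rintro Q _ ⟨s, hs, rfl⟩
    exact hGH s hs Q
  have hnB' : (n : ℤ) ∣ (Nat.card B : ℤ) - 2 := by
    have h1 : ((Nat.card B - 2 : ℕ) : ℤ) = (Nat.card B : ℤ) - 2 := by
      rw [Nat.cast_sub (by omega)]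
      rfl
    rw [← h1]
    exact_mod_cast hnB
  by_cases hBW : B ⊆ orb G P0
  · -- `B = W`
    exfalso
    have h1 := ExpB_sum (n := n) e (e P0) B hB (fun P hP => hconst P0 P (hBW hP))
    have h2 := dvd_sub hsum h1
    have e1 : ∑ P ∈ hB.toFinset, e P - (∑ P ∈ hB.toFinset, e P - (Nat.card B : ℤ) * e P0) =
        (Nat.card B : ℤ) * e P0 := by ring
    rw [e1] at h2
    have h4 : (n : ℤ) ∣ (Nat.card B : ℤ) := (hnZ.dvd_or_dvd h2).resolve_right (he P0 hPB)
    apply hn2'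
    have h5 := dvd_sub h4 hnB'
    have e2 : (Nat.card B : ℤ) - ((Nat.card B : ℤ) - 2) = 2 := by ring
    rwa [e2] at h5
  · obtain ⟨Q, hQB, hQW⟩ := Set.not_subset.1 hBW
    obtain ⟨hT, hT2⟩ := hout Q (hst Q hQB) hQW
    have hWf : (orb G P0).Finite := hB.subset hWB
    have hTf : (orb G Q).Finite := hB.subset (horb Q hQB)
    have hdis : Disjoint (orb G P0) (orb G Q) := by
      rw [Set.disjoint_left]
      intro R h1 h2
      exact hQW (Wild_orb_trans G h1 (B6_orb_symm G h2))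
    have hBu : B = orb G P0 ∪ orb G Q := by
      apply Set.Subset.antisymm
      · intro R hR
        by_cases hRW : R ∈ orb G P0
        · exact Or.inl hRW
        · exact Or.inr (hT2 R (hst R hR) hRW)
      · exact Set.union_subset hWB (horb Q hQB)
    have hcard : Nat.card B = a + ((q - 2) * a + 2) := by
      rw [hBu, Nat.card_coe_set_eq, Set.ncard_union_eq hdis hWf hTf, ← Nat.card_coe_set_eq,
        ← Nat.card_coe_set_eq, ← ha, hT]
    have hsum2 : ∑ P ∈ hB.toFinset, e P =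
        ∑ P ∈ hWf.toFinset, e P + ∑ P ∈ hTf.toFinset, e P := by
      have h1 : hB.toFinset = hWf.toFinset ∪ hTf.toFinset := by
        ext R
        simp only [Set.Finite.mem_toFinset, Finset.mem_union]
        rw [hBu]
        rfl
      rw [h1, Finset.sum_union]
      rw [Finset.disjoint_left]
      intro R h2 h4
      exact Set.disjoint_left.1 hdis (hWf.mem_toFinset.1 h2) (hTf.mem_toFinset.1 h4)
    rcases hcase with h | h | ⟨h, -⟩
    · -- `q = 2`
      exfalso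
      rw [h] at hcard hT
      have hc : Nat.card B = a + 2 := by omega
      have hT' : Nat.card (orb G Q) = 2 := by omega
      have hna : (n : ℤ) ∣ (a : ℤ) := by
        rw [hc] at hnB'
        have e1 : ((a + 2 : ℕ) : ℤ) - 2 = (a : ℤ) := by push_cast; ring
        rwa [e1] at hnB'
      have h1 := ExpB_sum (n := n) e (e P0) _ hWf (fun P hP => hconst P0 P hP)
      have h2 := ExpB_sum (n := n) e (e Q) _ hTf (fun P hP => hconst Q P hP)
      rw [hsum2] at hsum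
      have h4 := dvd_sub (dvd_sub hsum (dvd_add h1 h2)) (hna.mul_right (e P0))
      have e1 : ∑ P ∈ hWf.toFinset, e P + ∑ P ∈ hTf.toFinset, e P -
          (∑ P ∈ hWf.toFinset, e P - (Nat.card (orb G P0) : ℤ) * e P0 +
            (∑ P ∈ hTf.toFinset, e P - (Nat.card (orb G Q) : ℤ) * e Q)) - (a : ℤ) * e P0 =
          2 * e Q := by
        rw [← ha, hT']
        push_cast
        ring
      rw [e1] at h4
      rcases hnZ.dvd_or_dvd h4 with h5 | h5
      · exact hn2' h5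
      · exact he Q hQB h5
    · -- `a = 1`
      right
      refine ⟨j, ?_⟩
      rw [hcard, h, ← hqj]
      omega
    · -- `a = q + 1`
      right
      refine ⟨2 * j, ?_⟩
      rw [hcard, h, mul_comm 2 j, pow_mul, ← hqj]
      obtain ⟨t, rfl⟩ : ∃ t, q = t + 2 := ⟨q - 2, by omega⟩
      rw [Nat.add_sub_cancel]
      ring

end Pool.Agent.Helper22.HE
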