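import Pool.Agent.Helper22.HE.HypG
import Pool.Agent.Helper22.HB.Fin

/-!
MP_143e28_ag, project HE (helper22): the bound for hyperelliptic curves in characteristic 2, any odd `g`.

`grp_bound2`: copy of `grp_bound` in `Helper22.HB.Upper` with `group_bound2` (private lemma `Upper_single`).  `upperH`: as `upper2` in
`Helper22.HB.Fin` (`grp_fin`, `auto_group2`).
-/

set_option autoImplicit false

namespace Pool.Agent.Helper22.HE

open Polynomial OnePoint Pool.Agent.Helper28.HA Pool.Agent.Helper22.HB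

private theorem HypU_single {k : Type*} (m : OnePoint k → ℕ) {N : ℕ}
    (hsum : ∑ᶠ P : OnePoint k, (if m P = 0 then 0 else m P + 1) = N) {P : OnePoint k}
    (hP : m P ≠ 0) (h : ∀ Q, m Q ≠ 0 → Q = P) : m P + 1 = N := by
  rw [finsum_eq_single _ P] at hsum
  · rw [if_neg hP] at hsum
    exact hsum
  · intro Q hQ
    by_cases h0 : m Q = 0
    · rw [if_pos h0]
    · exact absurd (h Q h0) hQ

theorem grp_bound2 {k : Type*} [Field k] [IsAlgClosed k] [CharP k 2] {A B : k[X]} (hc : IsCoprime A B)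
    (hB : B ≠ 0) (hodd : ∀ P : OnePoint k, pol A B P ≠ 0 → Odd (pol A B P)) {g : ℕ} (hg : Odd g)
    (hg2 : 2 ≤ g)
    (hsum : ∑ᶠ P : OnePoint k, (if pol A B P = 0 then 0 else pol A B P + 1) = 2 * g + 2) :
    Nat.card (grp A B) ≤ 2 * g + 1 ∨ ∃ q c j : ℕ, 4 ≤ q ∧ q = 2 ^ j ∧
      2 * g = (q - 1) * (c * (q + 1) + 1) ∧ Nat.card (grp A B) = (q + 1) * (q * (q - 1)) := by
  obtain ⟨-, h2⟩ := group_bound2 (grp A B) (grp_mob A B) (pol A B)
    (fun s hs P => grp_pol hc hB hodd hs P) (pol_fin hB) hg hodd hsum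
    (fun P hP => grp_tame hc hB hodd P hP) (by
      intro P hP honly s hs
      rcases hs.2 with h | h
      · exact h
      · exfalso
        obtain ⟨M, hM, u, hu⟩ := hs.1
        have hmP : pol A B P = 2 * g + 1 := by
          have := HypU_single _ hsum hP honly
          omega
        have hP' : ∀ Q, Q ≠ P → pol A B Q = 0 := by
          intro Q hQ
          by_contra h0
          exact hQ (honly Q h0)
        refine triv hc hB hg (by omega) hmP hP' hu ?_
        intro Q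
        rw [← hM]
        exact h Q)
  rcases h2 with h | h
  · exact Or.inl (by omega)
  · exact Or.inr h

theorem upperH {k F : Type*} [Field k] [IsAlgClosed k] [CharP k 2] [Field F] [Algebra k F]
    {g : ℕ} (hg : Odd g) (hg2 : 2 ≤ g) (h : IsHyp2 k F g) :
    Nat.card (F ≃ₐ[k] F) ≤ 4 * g + 2 ∨ ∃ q c j : ℕ, 4 ≤ q ∧ q = 2 ^ j ∧
      2 * g = (q - 1) * (c * (q + 1) + 1) ∧ Nat.card (F ≃ₐ[k] F) ≤ 2 * ((q + 1) * (q * (q - 1))) := by
  obtain ⟨x, y, A, B, h⟩ := h
  obtain ⟨h1, -⟩ := grp_fin h.cop h.ne h.odd hg2 h.genus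
  obtain ⟨-, h4⟩ := auto_group2 hg2 h h1
  rcases grp_bound2 h.cop h.ne h.odd hg hg2 h.genus with h5 | ⟨q, c, j, h6, h7, h8, h9⟩
  · exact Or.inl (by omega)
  · refine Or.inr ⟨q, c, j, h6, h7, h8, ?_⟩
    rw [← h9]
    exact h4

end Pool.Agent.Helper22.HE
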