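import Mathlib

/-!
MP_143e28_ag, project HE (helper22): the special genera `903 l` (elementary number theory, Mathlib only).

`inf_sp`: one residue class prime to `8 * 3 * 7 * 13 * 43 = 93912` (e.g. by the Chinese remainder theorem, or find the number by hand:
`l = 7` modulo 8 and `l = 1` modulo `3 * 7 * 13 * 43 = 11739`), Dirichlet (`Nat.forall_exists_prime_gt_and_eq_mod` or
`Nat.infinite_setOf_prime_and_eq_mod`).
`cases2`: `n - 1` divides `1806 l`, `1806 = 2 * 3 * 7 * 43`, `l` prime: `n - 1 = d` or `d l` with `d ∣ 1806`, i.e.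
`d ∈ {1, 2, 3, 6, 7, 14, 21, 42, 43, 86, 129, 258, 301, 602, 903, 1806}`.  `n - 1 = d`: `d + 1` is prime only for `d = 1, 2, 6, 42`.  `n - 1 = d l`:
`d` odd: `n` is even and `> 2`; `d = 2, 14, 86, 602`: `3 ∣ d l + 1` (`l = 1` modulo 3); `6, 258`: `7`; `42`: `43`; `1806`: `13 ∣ 1806 l + 1`; all are
`< n`.  Then `n = 3`: `r - 2 = 903 l`; `n = 7`: `r - 2 = 301 l`; `n = 43`: `r - 2 = 43 l`.  `r = 2 ^ i + 1`: `903 l + 1`, `43 l + 1` are `2` modulo `4`,
`301 l + 1` is `4` modulo `8`.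
`no_q`: `l` divides `q - 1` or `c (q + 1) + 1`.  If `c (q + 1) + 1 = l u`: `1806 = (q - 1) u`, `q - 1` is odd, so `q - 1 ∣ 903`, `q = 2 ^ j`:
`q ∈ {4, 8}`.  If `q - 1 = l u`: `1806 = u (c (q + 1) + 1)`; `c = 0`: `u = 1806`, `q - 1` even, no; `c ≥ 1`: `q < 1806`, but `q > l`.
-/

set_option autoImplicit false

namespace Pool.Agent.Helper22.HE

/-- the special primes -/
def Sp (l : ℕ) : Prop :=
  l.Prime ∧ l % 8 = 7 ∧ l % 3 = 1 ∧ l % 7 = 1 ∧ l % 13 = 1 ∧ l % 43 = 1 ∧ 10000 < l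

theorem inf_sp : {l : ℕ | Sp l}.Infinite := by
  apply Set.infinite_of_forall_exists_gt
  intro n
  have hu : IsUnit ((23479 : ℕ) : ZMod 93912) := by
    rw [ZMod.isUnit_iff_coprime]
    norm_num
  obtain ⟨p, hp1, hp2, hp3⟩ := Nat.forall_exists_prime_gt_and_eq_mod hu (max n 10000)
  have h1 : p % 93912 = 23479 := by
    have := (ZMod.natCast_eq_natCast_iff' p 23479 93912).1 hp3
    simpa using this
  have h2 := le_max_left n 10000
  have h3 := le_max_right n 10000
  exact ⟨p, ⟨hp2, by omega, by omega, by omega, by omega, by omega, by omega⟩, by omega⟩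

private theorem Spec_div {d : ℕ} (h : d ∣ 1806) : d = 1 ∨ d = 2 ∨ d = 3 ∨ d = 6 ∨ d = 7 ∨ d = 14 ∨
    d = 21 ∨ d = 42 ∨ d = 43 ∨ d = 86 ∨ d = 129 ∨ d = 258 ∨ d = 301 ∨ d = 602 ∨ d = 903 ∨
    d = 1806 := by
  have h1 : d ∈ Nat.divisors 1806 := Nat.mem_divisors.2 ⟨h, by norm_num⟩
  have h2 : Nat.divisors 1806 = {1, 2, 3, 6, 7, 14, 21, 42, 43, 86, 129, 258, 301, 602, 903, 1806} := by
    decide +kernel
  rw [h2] at h1
  simpa using h1

private theorem Spec_np {n p : ℕ} (hn : n.Prime) (hp : 2 ≤ p) (hpn : p < n) (h : n % p = 0) :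
    False := by
  have h1 : p ∣ n := Nat.dvd_of_mod_eq_zero h
  rcases (Nat.dvd_prime hn).1 h1 with h2 | h2 <;> omega

/-- `l * d + 1` is not prime when `d ∣ 1806`. -/
private theorem Spec_c1 {l d : ℕ} (h2 : l % 2 = 1) (h3 : l % 3 = 1) (h7 : l % 7 = 1)
    (h13 : l % 13 = 1) (h43 : l % 43 = 1) (hbig : 10000 < l) (hd1 : d ∣ 1806)
    (hn : (l * d + 1).Prime) : False := by
  have hd0 : 0 < d := Nat.pos_of_dvd_of_pos hd1 (by norm_num)
  have hld : l ≤ l * d := Nat.le_mul_of_pos_right _ hd0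
  have hlt : 10000 < l * d + 1 := by clear h2 h3 h7 h13 h43 hd1 hn; omega
  rcases Spec_div hd1 with rfl | rfl | rfl | rfl | rfl | rfl | rfl | rfl | rfl | rfl | rfl | rfl |
    rfl | rfl | rfl | rfl
  · exact Spec_np (p := 2) hn (by norm_num) (lt_trans (by norm_num) hlt)
      (by rw [Nat.add_mod, Nat.mul_mod, h2])
  · exact Spec_np (p := 3) hn (by norm_num) (lt_trans (by norm_num) hlt)
      (by rw [Nat.add_mod, Nat.mul_mod, h3])
  · exact Spec_np (p := 2) hn (by norm_num) (lt_trans (by norm_num) hlt)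
      (by rw [Nat.add_mod, Nat.mul_mod, h2])
  · exact Spec_np (p := 7) hn (by norm_num) (lt_trans (by norm_num) hlt)
      (by rw [Nat.add_mod, Nat.mul_mod, h7])
  · exact Spec_np (p := 2) hn (by norm_num) (lt_trans (by norm_num) hlt)
      (by rw [Nat.add_mod, Nat.mul_mod, h2])
  · exact Spec_np (p := 3) hn (by norm_num) (lt_trans (by norm_num) hlt)
      (by rw [Nat.add_mod, Nat.mul_mod, h3])
  · exact Spec_np (p := 2) hn (by norm_num) (lt_trans (by norm_num) hlt)
      (by rw [Nat.add_mod, Nat.mul_mod, h2])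
  · exact Spec_np (p := 43) hn (by norm_num) (lt_trans (by norm_num) hlt)
      (by rw [Nat.add_mod, Nat.mul_mod, h43])
  · exact Spec_np (p := 2) hn (by norm_num) (lt_trans (by norm_num) hlt)
      (by rw [Nat.add_mod, Nat.mul_mod, h2])
  · exact Spec_np (p := 3) hn (by norm_num) (lt_trans (by norm_num) hlt)
      (by rw [Nat.add_mod, Nat.mul_mod, h3])
  · exact Spec_np (p := 2) hn (by norm_num) (lt_trans (by norm_num) hlt)
      (by rw [Nat.add_mod, Nat.mul_mod, h2])
  · exact Spec_np (p := 7) hn (by norm_num) (lt_trans (by norm_num) hlt)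
      (by rw [Nat.add_mod, Nat.mul_mod, h7])
  · exact Spec_np (p := 2) hn (by norm_num) (lt_trans (by norm_num) hlt)
      (by rw [Nat.add_mod, Nat.mul_mod, h2])
  · exact Spec_np (p := 3) hn (by norm_num) (lt_trans (by norm_num) hlt)
      (by rw [Nat.add_mod, Nat.mul_mod, h3])
  · exact Spec_np (p := 2) hn (by norm_num) (lt_trans (by norm_num) hlt)
      (by rw [Nat.add_mod, Nat.mul_mod, h2])
  · exact Spec_np (p := 13) hn (by norm_num) (lt_trans (by norm_num) hlt)
      (by rw [Nat.add_mod, Nat.mul_mod, h13])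

/-- `d + 1` is prime with `d ∣ 1806` only for `d = 1, 2, 6, 42`. -/
private theorem Spec_c2 {d : ℕ} (hd1 : d ∣ 1806) (hn : (d + 1).Prime) :
    d + 1 = 2 ∨ d + 1 = 3 ∨ d + 1 = 7 ∨ d + 1 = 43 := by
  rcases Spec_div hd1 with rfl | rfl | rfl | rfl | rfl | rfl | rfl | rfl | rfl | rfl | rfl | rfl |
    rfl | rfl | rfl | rfl
  · exact Or.inl rfl
  · exact Or.inr (Or.inl rfl)
  · exact (Spec_np (p := 2) hn (by norm_num) (by norm_num) (by norm_num)).elim
  · exact Or.inr (Or.inr (Or.inl rfl))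
  · exact (Spec_np (p := 2) hn (by norm_num) (by norm_num) (by norm_num)).elim
  · exact (Spec_np (p := 3) hn (by norm_num) (by norm_num) (by norm_num)).elim
  · exact (Spec_np (p := 2) hn (by norm_num) (by norm_num) (by norm_num)).elim
  · exact Or.inr (Or.inr (Or.inr rfl))
  · exact (Spec_np (p := 2) hn (by norm_num) (by norm_num) (by norm_num)).elim
  · exact (Spec_np (p := 3) hn (by norm_num) (by norm_num) (by norm_num)).elim
  · exact (Spec_np (p := 2) hn (by norm_num) (by norm_num) (by norm_num)).elim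
  · exact (Spec_np (p := 7) hn (by norm_num) (by norm_num) (by norm_num)).elim
  · exact (Spec_np (p := 2) hn (by norm_num) (by norm_num) (by norm_num)).elim
  · exact (Spec_np (p := 3) hn (by norm_num) (by norm_num) (by norm_num)).elim
  · exact (Spec_np (p := 2) hn (by norm_num) (by norm_num) (by norm_num)).elim
  · exact (Spec_np (p := 13) hn (by norm_num) (by norm_num) (by norm_num)).elim

private theorem Spec_mod4 (i x : ℕ) (hx : x % 4 = 2) (hx2 : 2 < x) : x ≠ 2 ^ i := by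
  intro he
  match i with
  | 0 => simp at he; omega
  | 1 => simp at he; omega
  | j + 2 =>
    rw [pow_add] at he
    omega

private theorem Spec_mod8 (i x : ℕ) (hx : x % 8 = 4) (hx2 : 4 < x) : x ≠ 2 ^ i := by
  intro he
  match i with
  | 0 => simp at he; omega
  | 1 => simp at he; omega
  | 2 => simp at he; omega
  | j + 3 =>
    rw [pow_add] at he
    omega

private theorem Spec_n3 {r l : ℕ} (h8 : l % 8 = 7) (hbig : 10000 < l)
    (h : 2 * (r - 2) = 2 * (903 * l)) :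
    Odd r ∧ 3 ∣ r - 2 ∧ (∀ i, r ≠ 2 ^ i + 1) ∧ 2 * 3 < r ∧ 3 * r ≤ 4 * (903 * l) + 2 := by
  have hr : r = 903 * l + 2 := by omega
  subst hr
  clear h
  refine ⟨by rw [Nat.odd_iff]; omega, ⟨301 * l, by omega⟩, fun i hi => ?_, by omega, by omega⟩
  exact Spec_mod4 i (903 * l + 1) (by omega) (by omega) (by omega)

private theorem Spec_n7 {r l : ℕ} (h8 : l % 8 = 7) (hbig : 10000 < l)
    (h : 6 * (r - 2) = 2 * (903 * l)) :
    Odd r ∧ 7 ∣ r - 2 ∧ (∀ i, r ≠ 2 ^ i + 1) ∧ 2 * 7 < r ∧ 7 * r ≤ 4 * (903 * l) + 2 := by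
  have hr : r = 301 * l + 2 := by omega
  subst hr
  clear h
  refine ⟨by rw [Nat.odd_iff]; omega, ⟨43 * l, by omega⟩, fun i hi => ?_, by omega, by omega⟩
  exact Spec_mod8 i (301 * l + 1) (by omega) (by omega) (by omega)

private theorem Spec_n43 {r l : ℕ} (h8 : l % 8 = 7) (hbig : 10000 < l)
    (h : 42 * (r - 2) = 2 * (903 * l)) :
    Odd r ∧ 43 ∣ r - 2 ∧ (∀ i, r ≠ 2 ^ i + 1) ∧ 2 * 43 < r ∧ 43 * r ≤ 4 * (903 * l) + 2 := by
  have hr : r = 43 * l + 2 := by omega
  subst hr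
  clear h
  refine ⟨by rw [Nat.odd_iff]; omega, ⟨l, by omega⟩, fun i hi => ?_, by omega, by omega⟩
  exact Spec_mod4 i (43 * l + 1) (by omega) (by omega) (by omega)

theorem cases2 {n r l : ℕ} (hl : Sp l) (hn : n.Prime) (h : (n - 1) * (r - 2) = 2 * (903 * l)) :
    n = 2 ∨ (Odd r ∧ n ∣ r - 2 ∧ (∀ i, r ≠ 2 ^ i + 1) ∧ 2 * n < r ∧
      n * r ≤ 4 * (903 * l) + 2) := by
  obtain ⟨hlp, h8, h3, h7, h13, h43, hbig⟩ := hl
  have h2 : l % 2 = 1 := by clear h3 h7 h13 h43 h; omega
  obtain ⟨m, rfl⟩ : ∃ m, n = m + 1 := ⟨n - 1, (Nat.succ_pred_eq_of_pos hn.pos).symm⟩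
  rw [Nat.add_sub_cancel] at h
  have hdvd : m ∣ 1806 * l := ⟨r - 2, by rw [h, ← Nat.mul_assoc]⟩
  by_cases hln : l ∣ m
  · exfalso
    obtain ⟨d, rfl⟩ := hln
    have hd1 : d ∣ 1806 := by
      rw [Nat.mul_comm 1806 l] at hdvd
      exact Nat.dvd_of_mul_dvd_mul_left hlp.pos hdvd
    exact Spec_c1 h2 h3 h7 h13 h43 hbig hd1 hn
  · have hcop : Nat.Coprime m l := ((Nat.Prime.coprime_iff_not_dvd hlp).2 hln).symm
    have hd1 : m ∣ 1806 := hcop.dvd_of_dvd_mul_right hdvd
    rcases Spec_c2 hd1 hn with key | key | key | key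
    · exact Or.inl key
    · have hm : m = 2 := Nat.succ.inj key
      subst hm
      exact Or.inr (Spec_n3 h8 hbig h)
    · have hm : m = 6 := Nat.succ.inj key
      subst hm
      exact Or.inr (Spec_n7 h8 hbig h)
    · have hm : m = 42 := Nat.succ.inj key
      subst hm
      exact Or.inr (Spec_n43 h8 hbig h)

private theorem Spec_j (j : ℕ) (hj : j < 11) (hc : 3 < j) (hd : 2 ^ j - 1 ∣ 1806) : False := by
  interval_cases j <;> revert hd <;> decide

theorem no_q {l q c j : ℕ} (hl : Sp l) (hq : q = 2 ^ j) (hq4 : 4 ≤ q)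
    (h : 2 * (903 * l) = (q - 1) * (c * (q + 1) + 1)) : q ≤ 8 := by
  obtain ⟨hlp, -, -, -, -, -, hbig⟩ := hl
  have hl0 : 0 < l := hlp.pos
  have hdvd : l ∣ (q - 1) * (c * (q + 1) + 1) := by
    rw [← h]
    exact ⟨1806, by ring⟩
  rcases (Nat.Prime.dvd_mul hlp).1 hdvd with ⟨u, hu⟩ | ⟨u, hu⟩
  · exfalso
    rw [hu] at h
    have h1 : 1806 = u * (c * (q + 1) + 1) := by
      apply Nat.eq_of_mul_eq_mul_left hl0
      linarith
    clear h hdvd
    rcases Nat.eq_zero_or_pos c with hc | hc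
    · subst hc
      have hu' : u = 1806 := by linarith
      subst hu'
      have hj : j ≠ 0 := by
        rintro rfl
        simp at hq
        omega
      obtain ⟨i, rfl⟩ := Nat.exists_eq_succ_of_ne_zero hj
      rw [Nat.succ_eq_add_one, pow_succ] at hq
      omega
    · have hu0 : 0 < u := by
        rcases Nat.eq_zero_or_pos u with h0 | h0
        · rw [h0, Nat.zero_mul] at h1
          exact absurd h1 (by norm_num)
        · exact h0
      have h2 : q + 1 ≤ c * (q + 1) := Nat.le_mul_of_pos_left _ hc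
      have h4 : c * (q + 1) + 1 ≤ u * (c * (q + 1) + 1) := Nat.le_mul_of_pos_left _ hu0
      have h5 : l ≤ l * u := Nat.le_mul_of_pos_right _ hu0
      rw [← h1] at h4
      rw [← hu] at h5
      generalize c * (q + 1) = w at h2 h4
      clear h1 hu hq
      omega
  · rw [hu] at h
    have h1 : 1806 = (q - 1) * u := by
      apply Nat.eq_of_mul_eq_mul_left hl0
      linarith
    have hd : q - 1 ∣ 1806 := ⟨u, h1⟩
    clear h hu h1 hdvd hbig hlp hl0
    by_contra hc
    have hle := Nat.le_of_dvd (by norm_num) hd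
    have hj11 : j < 11 := by
      by_contra hj11
      have : 2 ^ 11 ≤ 2 ^ j := Nat.pow_le_pow_right (by norm_num) (by omega)
      rw [← hq] at this
      omega
    have hj3 : 3 < j := by
      by_contra hj3
      have : 2 ^ j ≤ 2 ^ 3 := Nat.pow_le_pow_right (by norm_num) (by omega)
      rw [← hq] at this
      omega
    subst hq
    exact Spec_j j hj11 hj3 hd

end Pool.Agent.Helper22.HE
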