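import Pool.Agent.Helper54.HZ.Val

/-!
MP_143e28_ag, project HE (helper22): the sum of the orders of a polynomial over the branch points.

`∑` over the roots of `f` of the multiplicity is `deg f` (`k` algebraically closed: `(IsAlgClosed.splits f).natDegree_eq_card_roots`,
`Multiset.toFinset_sum_count_eq`, `count_roots`); all roots are in `BrN n f`; the other elements of `BrN n f`: `∞`, if `n` does not divide
`deg f`, with the order `- deg f` (`ord_poly_coe`, `ord_poly_infty` of `Helper54.HZ.Ord`).  So the sum is `0` or `deg f` (divisible by `n`).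
-/

set_option autoImplicit false

namespace Pool.Agent.Helper22.HE

open Polynomial OnePoint Pool.Agent.Helper54.HZ

variable {k : Type*} [Field k]

theorem sum_ord [IsAlgClosed k] (n : ℕ) {f : k[X]} (hf : f ≠ 0) :
    (n : ℤ) ∣ ∑ P ∈ (finite_BrN n hf).toFinset, ordP P (algebraMap k[X] (RatFunc k) f) := by
  classical
  have hdeg : ∑ P ∈ f.roots.toFinset.image (fun a : k => (a : OnePoint k)),
      ordP P (algebraMap k[X] (RatFunc k) f) = (f.natDegree : ℤ) := by
    rw [Finset.sum_image fun a _ b _ h => OnePoint.coe_injective h]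
    have e1 : ∀ a ∈ f.roots.toFinset, ordP (a : OnePoint k) (algebraMap k[X] (RatFunc k) f) =
        ((f.roots.count a : ℕ) : ℤ) := fun a _ => by rw [ord_poly_coe, count_roots]
    rw [Finset.sum_congr rfl e1]
    have h := Multiset.toFinset_sum_count_eq f.roots
    have h2 : f.natDegree = f.roots.card := (IsAlgClosed.splits f).natDegree_eq_card_roots
    rw [h2, ← h]
    push_cast
    rfl
  by_cases hn : n ∣ f.natDegree
  · have hB : (finite_BrN n hf).toFinset = f.roots.toFinset.image (fun a : k => (a : OnePoint k)) := by
      ext P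
      rw [Set.Finite.mem_toFinset, Finset.mem_image]
      constructor
      · rintro (⟨a, ha, rfl⟩ | ⟨h, _⟩)
        · exact ⟨a, by rw [Multiset.mem_toFinset]; exact (mem_roots hf).mpr ha, rfl⟩
        · exact absurd hn h
      · rintro ⟨a, ha, rfl⟩
        rw [Multiset.mem_toFinset] at ha
        exact Or.inl ⟨a, (mem_roots hf).mp ha, rfl⟩
    rw [hB, hdeg]
    exact_mod_cast hn
  · have hB : (finite_BrN n hf).toFinset =
        insert OnePoint.infty (f.roots.toFinset.image (fun a : k => (a : OnePoint k))) := by
      ext P
      rw [Set.Finite.mem_toFinset, Finset.mem_insert, Finset.mem_image]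
      constructor
      · rintro (⟨a, ha, rfl⟩ | ⟨_, rfl⟩)
        · exact Or.inr ⟨a, by rw [Multiset.mem_toFinset]; exact (mem_roots hf).mpr ha, rfl⟩
        · exact Or.inl rfl
      · rintro (rfl | ⟨a, ha, rfl⟩)
        · exact Or.inr ⟨hn, rfl⟩
        · rw [Multiset.mem_toFinset] at ha
          exact Or.inl ⟨a, (mem_roots hf).mp ha, rfl⟩
    have hni : (OnePoint.infty : OnePoint k) ∉
        f.roots.toFinset.image (fun a : k => (a : OnePoint k)) := by
      intro h
      obtain ⟨a, -, ha⟩ := Finset.mem_image.1 h
      exact OnePoint.coe_ne_infty a ha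
    rw [hB, Finset.sum_insert hni, hdeg, ord_poly_infty, neg_add_cancel]
    exact dvd_zero _

end Pool.Agent.Helper22.HE
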