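import Pool.Agent.Helper22.HE.GrpE
import Pool.Agent.Helper22.HE.Sum0
import Pool.Agent.Helper22.HE.ExpB
import Pool.Agent.Helper22.HE.HypU
import Pool.Agent.Helper22.HE.Spec
import Pool.Agent.Helper22.HE.Bridge
import Pool.Agent.Helper54.HZ.Mem

/-!
MP_143e28_ag, project HE (helper22): assembly.
-/

set_option autoImplicit false

namespace Pool.Agent.Helper22.HE

open Polynomial OnePoint Pool.Agent.Helper28.HA Pool.Agent.Helper22.HB Pool.Agent.Helper54.HZ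

theorem upperN2 {k F : Type*} [Field k] [IsAlgClosed k] [CharP k 2] [Field F] [Algebra k F] {n l : ℕ}
    (hl : Sp l) {x y : F} {f : k[X]} (h : PresN k F n (903 * l) x y f) :
    Finite (F ≃ₐ[k] F) ∧ Nat.card (F ≃ₐ[k] F) ≤ 4 * (903 * l) + 2 := by
  have hl0 : 0 < 903 * l := by have := hl.2.2.2.2.2.2; omega
  have hn2 : n ≠ 2 := by
    rintro rfl
    exact h.char (CharP.cast_eq_zero k 2)
  obtain ⟨hodd, hdvd, hpow, hr, hbd⟩ := (cases2 hl h.prime h.genus).resolve_left hn2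
  obtain ⟨G, hG, hGB, hGe, hGc⟩ := auto_groupE hl0 h (fun s => auto_memN hl0 h hr s)
  have hn := h.prime.two_le
  obtain ⟨h1, h2⟩ := exp_bound h.prime hn2 G hG (BrN n f) (finite_BrN n h.ne0) hGB
    (fun P => ordP P (algebraMap k[X] (RatFunc k) f))
    (fun P hP => (mem_BrN h.prime.one_lt h.ne0 h.mult P).1 hP) hGe (sum_ord n h.ne0) hodd
    (by omega) hdvd
  obtain ⟨h3, h4⟩ := hGc h1
  refine ⟨h3, ?_⟩
  rcases h2 with h2 | ⟨i, h2⟩
  · exact h4.trans ((Nat.mul_le_mul_left n h2).trans hbd)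
  · exact absurd h2 (hpow i)

theorem upperAS2 {k F : Type*} [Field k] [IsAlgClosed k] [CharP k 2] [Field F] [Algebra k F] {l : ℕ}
    (hl : Sp l) {x y : F} {f : RatFunc k} (h : PresAS k F 2 (903 * l) x y f) :
    Finite (F ≃ₐ[k] F) ∧ Nat.card (F ≃ₐ[k] F) ≤ 4 * (903 * l) + 2 := by
  have hl1 := hl.2.2.2.2.2.2
  have hl2 := hl.2.1
  have hH : IsHyp2 k F (903 * l) := ⟨x, y, f.num, f.denom, pres2_of_as h⟩
  have hodd : Odd (903 * l) := by
    rw [Nat.odd_iff]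
    omega
  refine ⟨(fin_all (by omega) hH).1, ?_⟩
  rcases upperH hodd (by omega) hH with h1 | ⟨q, c, j, hq4, hq, hqc, h1⟩
  · exact h1
  · have hq8 := no_q hl hq hq4 hqc
    have h2 : (q + 1) * (q * (q - 1)) ≤ (8 + 1) * (8 * (8 - 1)) :=
      Nat.mul_le_mul (by omega) (Nat.mul_le_mul hq8 (by omega))
    omega

theorem upperC.{u} (k : Type u) [Field k] [IsAlgClosed k] [CharP k 2] {l : ℕ} (hl : Sp l) (S : Set ℕ) :
    muCov k 2 S (903 * l) ≤ ((4 * (903 * l) + 2 : ℕ) : ℕ∞) := by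
  unfold muCov
  refine sSup_le ?_
  rintro n ⟨F, _, _, hF, rfl⟩
  have h1 : Finite (F ≃ₐ[k] F) ∧ Nat.card (F ≃ₐ[k] F) ≤ 4 * (903 * l) + 2 := by
    rcases hF with ⟨n, -, x, y, f, hF⟩ | ⟨-, x, y, f, hF⟩
    · exact upperN2 hl hF
    · exact upperAS2 hl hF
  obtain ⟨ha, hb⟩ := h1
  rw [ENat.card_eq_coe_natCard]
  exact_mod_cast hb

theorem lowerC.{u} (k : Type u) [Field k] [IsAlgClosed k] [CharP k 2] {g : ℕ} (hg : 2 ≤ g) (S : Set ℕ)
    (hS : 2 ∈ S) : ((4 * g + 2 : ℕ) : ℕ∞) ≤ muCov k 2 S g := by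
  obtain ⟨F, _, _, x, y, hP⟩ := exists_pres2 k g
  have hH : IsHyp2 k F g := ⟨x, y, _, _, hP⟩
  have hfin := (fin_all hg hH).1
  have hlow := many2 hP
  unfold muCov
  refine le_trans ?_ (le_sSup ⟨F, _, _, Or.inr ⟨hS, x, y, _, as_of_pres2 hP⟩, rfl⟩)
  rw [ENat.card_eq_coe_natCard]
  exact_mod_cast hlow

theorem exactC.{u} (k : Type u) [Field k] [IsAlgClosed k] [CharP k 2] {l : ℕ} (hl : Sp l) (S : Set ℕ)
    (hS : 2 ∈ S) : muCov k 2 S (903 * l) = ((4 * (903 * l) + 2 : ℕ) : ℕ∞) :=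
  le_antisymm (upperC k hl S) (lowerC k (by have := hl.2.2.2.2.2.2; omega) S hS)

theorem main_two.{u} (k : Type u) [Field k] [IsAlgClosed k] [CharP k 2] (S : Set ℕ) (hS : 2 ∈ S)
    (M : ℚ[X]) :
    ((∀ g : ℕ, 2 ≤ g → ∀ m : ℕ, muCov k 2 S g = m → M.eval (g : ℚ) ≤ m) ∧
      {g : ℕ | 2 ≤ g ∧ ∃ m : ℕ, muCov k 2 S g = m ∧ M.eval (g : ℚ) = m}.Infinite) ↔
    M = C 4 * X + C 2 := by
  have hsp : {g : ℕ | 2 ≤ g ∧ muCov k 2 S g = ((4 * g + 2 : ℕ) : ℕ∞)}.Infinite := by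
    have h2 : (fun l : ℕ => 903 * l) '' {l : ℕ | Sp l} ⊆
        {g : ℕ | 2 ≤ g ∧ muCov k 2 S g = ((4 * g + 2 : ℕ) : ℕ∞)} := by
      rintro _ ⟨l, hl, rfl⟩
      exact ⟨by have := hl.2.2.2.2.2.2; dsimp only; omega, exactC k hl S hS⟩
    refine Set.Infinite.mono h2 (inf_sp.image ?_)
    intro a _ b _ hab
    dsimp only at hab
    omega
  constructor
  · rintro ⟨hM1, hM2⟩
    by_contra hne
    refine sign_aux (M - (C 4 * X + C 2)) (sub_ne_zero.mpr hne) _ _ hsp hM2 ?_ ?_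
    · rintro g ⟨h1, h2⟩
      have e1 := hM1 g h1 (4 * g + 2) h2
      rw [eval_sub, eval_add, eval_mul, eval_C, eval_X, eval_C]
      push_cast at e1
      linarith
    · rintro g ⟨hg, m, hm, hM⟩
      have e1 := lowerC k hg S hS
      rw [hm] at e1
      have e2 : 4 * g + 2 ≤ m := by exact_mod_cast e1
      have e3 : ((4 * g + 2 : ℕ) : ℚ) ≤ m := by exact_mod_cast e2
      push_cast at e3
      rw [eval_sub, eval_add, eval_mul, eval_C, eval_X, eval_C, hM]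
      linarith
  · rintro rfl
    refine ⟨?_, ?_⟩
    · intro g hg m hm
      have e1 := lowerC k hg S hS
      rw [hm] at e1
      have e2 : 4 * g + 2 ≤ m := by exact_mod_cast e1
      have e3 : ((4 * g + 2 : ℕ) : ℚ) ≤ m := by exact_mod_cast e2
      push_cast at e3
      rw [eval_add, eval_mul, eval_C, eval_X, eval_C]
      exact e3
    · refine hsp.mono ?_
      rintro g ⟨h1, h2⟩
      refine ⟨h1, 4 * g + 2, h2, ?_⟩
      rw [eval_add, eval_mul, eval_C, eval_X, eval_C]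
      push_cast
      ring

end Pool.Agent.Helper22.HE
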