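import Pool.Agent.Helper22.HB.Stab
import Pool.Agent.Helper28.HA.B6

/-!
MP_143e28_ag, project HE (helper22): the order of the tame part of a stabilizer divides the exponent.

Compare `stab_le` in `Helper22.HB.Stab` and `card_stab` in `Helper28.HA.B2` (`B2_exists`: `d.f` = the homomorphism from the stabilizer to the
multipliers in `kˣ`, kernel `uni`, `#stab = #uni * #range d.f`, so `m' = #range d.f` by `hm'`).  The range is a finite subgroup of
`kˣ`, so cyclic (`IsCyclic`), of order `m'`; `s ^ m ∈ uni` says `(multiplier) ^ m = 1`, so the order `m'` of a generator divides `m`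
(`orderOf_dvd_of_pow_eq_one`).
-/

set_option autoImplicit false

namespace Pool.Agent.Helper22.HE

open Polynomial OnePoint Pool.Agent.Helper28.HA Pool.Agent.Helper22.HB

variable {k : Type*} [Field k]

/-- finite value of a point -/
private noncomputable def StabD_cv (x : OnePoint k) : k := x.elim 0 id

private theorem StabD_cv_coe (z : k) : StabD_cv (z : OnePoint k) = z := rfl

/-- after conjugation with `t` the permutation `s` is `z ↦ a z + b` -/
private def StabD_aff (t s : Equiv.Perm (OnePoint k)) (a b : k) : Prop :=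
  a ≠ 0 ∧ (t * s * t⁻¹) ∞ = ∞ ∧ ∀ z : k, (t * s * t⁻¹) (z : OnePoint k) = ((a * z + b : k) : OnePoint k)

private theorem StabD_aff_one (t : Equiv.Perm (OnePoint k)) : StabD_aff t 1 (1 : k) 0 := by
  refine ⟨one_ne_zero, by simp, fun z => by simp⟩

private theorem StabD_aff_mul {t s s' : Equiv.Perm (OnePoint k)} {a b a' b' : k} (h : StabD_aff t s a b)
    (h' : StabD_aff t s' a' b') : StabD_aff t (s * s') (a * a') (a * b' + b) := by
  have e : t * (s * s') * t⁻¹ = (t * s * t⁻¹) * (t * s' * t⁻¹) := by group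
  refine ⟨mul_ne_zero h.1 h'.1, ?_, fun z => ?_⟩
  · rw [e, Equiv.Perm.mul_apply, h'.2.1, h.2.1]
  · rw [e, Equiv.Perm.mul_apply, h'.2.2 z, h.2.2]
    congr 1
    ring

private theorem StabD_aff_inj {t s s' : Equiv.Perm (OnePoint k)} {a b : k} (h : StabD_aff t s a b)
    (h' : StabD_aff t s' a b) : s = s' := by
  have e : t * s * t⁻¹ = t * s' * t⁻¹ := by
    ext x
    induction x using OnePoint.rec with
    | infty => rw [h.2.1, h'.2.1]
    | coe z => rw [h.2.2, h'.2.2]
  exact mul_left_cancel (mul_right_cancel e)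

/-- the data of a point -/
private structure StabD_D (G : Subgroup (Equiv.Perm (OnePoint k))) (P : OnePoint k) where
  t : Equiv.Perm (OnePoint k)
  S : Subgroup (Equiv.Perm (OnePoint k))
  hS : ∀ s, s ∈ S ↔ s ∈ G ∧ s P = P
  ht : t P = ∞
  phi : S →* k
  beta : S → k
  spec : ∀ s : S, StabD_aff t s.1 (phi s) (beta s)

private theorem StabD_exists (G : Subgroup (Equiv.Perm (OnePoint k))) (hG : MobGroup G) (P : OnePoint k) :
    Nonempty (StabD_D G P) := by
  obtain ⟨t, ht, htP⟩ := mob_trans P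
  let S : Subgroup (Equiv.Perm (OnePoint k)) :=
    { carrier := {s | s ∈ G ∧ s P = P}
      one_mem' := ⟨G.one_mem, rfl⟩
      mul_mem' := by
        rintro a b ⟨ha, ha'⟩ ⟨hb, hb'⟩
        refine ⟨G.mul_mem ha hb, ?_⟩
        rw [Equiv.Perm.mul_apply, hb', ha']
      inv_mem' := by
        rintro a ⟨ha, ha'⟩
        refine ⟨G.inv_mem ha, ?_⟩
        rw [Equiv.Perm.inv_eq_iff_eq]
        exact ha'.symm }
  have key : ∀ s : S, StabD_aff t s.1 (StabD_cv ((t * s.1 * t⁻¹) ((1 : k) : OnePoint k)) -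
      StabD_cv ((t * s.1 * t⁻¹) ((0 : k) : OnePoint k))) (StabD_cv ((t * s.1 * t⁻¹) ((0 : k) : OnePoint k))) := by
    rintro ⟨s, hsG, hsP⟩
    have h1 : IsMob (t * s * t⁻¹) := (ht.mul (hG s hsG)).mul ht.inv
    have h2 : (t * s * t⁻¹) ∞ = ∞ := by
      rw [Equiv.Perm.mul_apply, Equiv.Perm.mul_apply]
      have : t⁻¹ ∞ = P := by rw [Equiv.Perm.inv_eq_iff_eq]; exact htP.symm
      rw [this, hsP, htP]
    obtain ⟨a, b, ha, hab⟩ := mob_affine h1 h2
    have e0 : StabD_cv ((t * s * t⁻¹) ((0 : k) : OnePoint k)) = b := by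
      rw [hab, StabD_cv_coe]; ring
    have e1 : StabD_cv ((t * s * t⁻¹) ((1 : k) : OnePoint k)) = a + b := by
      rw [hab, StabD_cv_coe]; ring
    show StabD_aff t s _ _
    rw [e0, e1, add_sub_cancel_right]
    exact ⟨ha, h2, hab⟩
  have uniq : ∀ (s : Equiv.Perm (OnePoint k)) (a b a' b' : k), StabD_aff t s a b → StabD_aff t s a' b' →
      a = a' ∧ b = b' := by
    intro s a b a' b' h h'
    have e0 := (h.2.2 0).symm.trans (h'.2.2 0)
    have e1 := (h.2.2 1).symm.trans (h'.2.2 1)
    rw [OnePoint.coe_eq_coe] at e0 e1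
    have hb : b = b' := by simpa using e0
    refine ⟨?_, hb⟩
    rw [hb] at e1
    simpa using e1
  refine ⟨⟨t, S, fun s => Iff.rfl, htP,
    { toFun := fun s => StabD_cv ((t * s.1 * t⁻¹) ((1 : k) : OnePoint k)) -
        StabD_cv ((t * s.1 * t⁻¹) ((0 : k) : OnePoint k))
      map_one' := ?_
      map_mul' := ?_ }, fun s => StabD_cv ((t * s.1 * t⁻¹) ((0 : k) : OnePoint k)), key⟩⟩
  · exact (uniq 1 _ _ _ _ (key 1) (StabD_aff_one t)).1
  · intro x y
    exact (uniq (x.1 * y.1) _ _ _ _ (key (x * y)) (StabD_aff_mul (key x) (key y))).1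

namespace StabD_D

variable {G : Subgroup (Equiv.Perm (OnePoint k))} {P : OnePoint k} (d : StabD_D G P)

private noncomputable def f : d.S →* kˣ := d.phi.toHomUnits

private theorem f_coe (s : d.S) : ((d.f s : kˣ) : k) = d.phi s := rfl

private theorem uniq {s : Equiv.Perm (OnePoint k)} {a b a' b' : k} (h : StabD_aff d.t s a b)
    (h' : StabD_aff d.t s a' b') : a = a' ∧ b = b' := by
  have e0 := (h.2.2 0).symm.trans (h'.2.2 0)
  have e1 := (h.2.2 1).symm.trans (h'.2.2 1)
  rw [OnePoint.coe_eq_coe] at e0 e1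
  have hb : b = b' := by simpa using e0
  refine ⟨?_, hb⟩
  rw [hb] at e1
  simpa using e1

private theorem mem_ker {s : d.S} : s ∈ d.f.ker ↔ d.phi s = 1 := by
  rw [MonoidHom.mem_ker, Units.ext_iff, f_coe, Units.val_one]

private theorem inj {s s' : d.S} (h : d.phi s = d.phi s') (h' : d.beta s = d.beta s') : s = s' := by
  have h1 := d.spec s
  rw [h, h'] at h1
  exact Subtype.ext (StabD_aff_inj h1 (d.spec s'))

/-- the kernel is `uni` -/
private theorem mem_ker_iff (s : d.S) : s ∈ d.f.ker ↔ s.1 ∈ uni G P := by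
  have hs := (d.hS s.1).mp s.2
  have hsp := d.spec s
  rw [mem_ker]
  constructor
  · intro h
    rw [h] at hsp
    refine ⟨hs.1, ?_⟩
    by_cases hb : d.beta s = 0
    · left
      rw [hb] at hsp
      exact StabD_aff_inj hsp (StabD_aff_one d.t)
    · right
      intro Q
      constructor
      · intro hQ
        have h1 : (d.t * s.1 * d.t⁻¹) (d.t Q) = d.t Q := by
          rw [Equiv.Perm.mul_apply, Equiv.Perm.mul_apply, ← Equiv.Perm.mul_apply d.t⁻¹ d.t,
            inv_mul_cancel, Equiv.Perm.one_apply, hQ]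
        by_contra hne
        have h2 : d.t Q ≠ ∞ := by
          intro h3
          apply hne
          apply d.t.injective
          rw [h3, d.ht]
        obtain ⟨z, hz⟩ := OnePoint.ne_infty_iff_exists.mp h2
        rw [← hz, hsp.2.2, OnePoint.coe_eq_coe] at h1
        apply hb
        linear_combination h1
      · rintro rfl
        exact hs.2
  · rintro ⟨_, h | h⟩
    · have : s = 1 := Subtype.ext h
      rw [this, map_one]
    · by_contra hne
      have hsub : (1 : k) - d.phi s ≠ 0 := sub_ne_zero.mpr (Ne.symm hne)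
      set z : k := d.beta s / (1 - d.phi s) with hz
      have h1 : (d.t * s.1 * d.t⁻¹) (z : OnePoint k) = (z : OnePoint k) := by
        rw [hsp.2.2, OnePoint.coe_eq_coe, hz]
        field_simp
        ring
      have h2 : s.1 (d.t⁻¹ (z : OnePoint k)) = d.t⁻¹ (z : OnePoint k) := by
        rw [Equiv.Perm.mul_apply, Equiv.Perm.mul_apply] at h1
        rw [Equiv.Perm.eq_inv_iff_eq]
        exact h1
      have h3 := (h _).mp h2
      rw [Equiv.Perm.inv_eq_iff_eq, d.ht] at h3
      exact OnePoint.coe_ne_infty z h3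

private theorem card_uni_eq : Nat.card (uni G P) = Nat.card d.f.ker := by
  symm
  refine Nat.card_congr ⟨fun v => ⟨v.1.1, (d.mem_ker_iff v.1).mp v.2⟩, fun s => ?_, ?_, ?_⟩
  · have h1 : s.1 ∈ d.S := by
      rw [d.hS]
      refine ⟨s.2.1, ?_⟩
      rcases s.2.2 with h | h
      · rw [h]; rfl
      · exact (h P).mpr rfl
    exact ⟨⟨s.1, h1⟩, (d.mem_ker_iff ⟨s.1, h1⟩).mpr s.2⟩
  · intro v
    rfl
  · intro s
    rfl

private theorem card_stab_eq : Nat.card (stab G P) = Nat.card d.S := by
  symm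
  exact Nat.card_congr ⟨fun v => ⟨v.1, (d.hS v.1).mp v.2⟩, fun s => ⟨s.1, (d.hS s.1).mpr s.2⟩,
    fun _ => rfl, fun _ => rfl⟩

private theorem fin [Finite G] : Finite d.S :=
  Finite.of_injective (fun s : d.S => (⟨s.1, ((d.hS s.1).mp s.2).1⟩ : G)) (by
    intro a b h
    exact Subtype.ext (congrArg (fun x : G => x.1) h))

end StabD_D

theorem stab_dvd (G : Subgroup (Equiv.Perm (OnePoint k))) [Finite G] (hG : MobGroup G) (P : OnePoint k)
    {m m' : ℕ} (h : ∀ s ∈ stab G P, s ^ m ∈ uni G P)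
    (hm' : Nat.card (stab G P) = Nat.card (uni G P) * m') : m' ∣ m := by
  obtain ⟨d⟩ := StabD_exists G hG P
  haveI := d.fin
  have h1 : Nat.card (stab G P) = Nat.card (uni G P) * Nat.card d.f.range := by
    rw [d.card_stab_eq, d.card_uni_eq, ← Subgroup.index_ker, Subgroup.card_mul_index]
  have hpos : 0 < Nat.card (uni G P) := by
    rw [d.card_uni_eq]
    exact Nat.card_pos
  have h2 : m' = Nat.card d.f.range := Nat.eq_of_mul_eq_mul_left hpos (hm'.symm.trans h1)
  haveI : Finite d.f.range := Finite.of_surjective _ d.f.rangeRestrict_surjective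
  haveI : IsCyclic d.f.range := inferInstance
  obtain ⟨g, hg⟩ := IsCyclic.exists_generator (α := d.f.range)
  have ho : orderOf g = Nat.card d.f.range := orderOf_eq_card_of_forall_mem_zpowers hg
  rw [h2, ← ho]
  apply orderOf_dvd_of_pow_eq_one
  obtain ⟨u, s, rfl⟩ := g
  have h3 : s ^ m ∈ d.f.ker := by
    rw [d.mem_ker_iff]
    have h4 := h s.1 ((d.hS s.1).mp s.2)
    rwa [Subgroup.coe_pow]
  apply Subtype.ext
  rw [Subgroup.coe_pow, Subgroup.coe_one]
  show d.f s ^ m = 1
  rw [← map_pow]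
  exact h3

end Pool.Agent.Helper22.HE
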