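import Pool.Agent.Helper22.HE.Struct
import Pool.Agent.Helper22.HE.StabD
import Pool.Agent.Helper22.HB.Bound

/-!
MP_143e28_ag, project HE (helper22): the bound for the group of a hyperelliptic curve in characteristic 2, any odd `g`.

Adapt the proof of `group_bound` in `Helper22.HB.Bound` (copy its private lemmas).  `B = {m ≠ 0}`.  If some `P ∈ B` has `uni G P = {1}`:
`bound_tame`: `#G < 2 g + 2`.  Otherwise, as there, `#B ≥ 3`, `G` is finite, `B = orb G P`, `a = #B`, `a (m P + 1) = 2 g + 2`.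
`wild_struct`: `q`, `a` odd.  `a = 1` is impossible (`#B ≥ 3`).  `q = 2`: `card_stab`: `#stab = 2 m'`, `m' ∣ 1`, so `#G = 2 a`; `m P` is odd,
`a ((m P + 1) / 2) = g + 1` is even, `a` is odd, so `(m P + 1) / 2 ≥ 2`, `2 a ≤ g + 1`.  `q ≠ 2`, `a = q + 1`, `#stab = q (q - 1)`: `q ≥ 4` is a
power of 2; `stab_dvd`: `m P = (q - 1) c`, so `2 g = (q + 1) ((q - 1) c + 1) - 2 = (q - 1) (c (q + 1) + 1)`; `#G = #orb * #stab`.
-/

set_option autoImplicit false

namespace Pool.Agent.Helper22.HE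

open Polynomial OnePoint Pool.Agent.Helper28.HA Pool.Agent.Helper22.HB

variable {k : Type*} [Field k]

omit [Field k] in
private theorem HypG_sum (m : OnePoint k → ℕ) (hf : {P | m P ≠ 0}.Finite) :
    ∑ᶠ P : OnePoint k, (if m P = 0 then 0 else m P + 1) = ∑ P ∈ hf.toFinset, (m P + 1) := by
  rw [finsum_eq_sum_of_support_subset _ (s := hf.toFinset)]
  · refine Finset.sum_congr rfl fun P hP => ?_
    rw [Set.Finite.mem_toFinset] at hP
    rw [if_neg hP]
  · intro P hP
    rw [Function.mem_support] at hP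
    rw [Set.Finite.coe_toFinset]
    intro h
    apply hP
    rw [if_pos h]

omit [Field k] in
private theorem HypG_orb_eq (G : Subgroup (Equiv.Perm (OnePoint k))) (m : OnePoint k → ℕ)
    (hm : ∀ s ∈ G, ∀ P, m (s P) = m P) {P Q : OnePoint k} (hQ : Q ∈ orb G P) : m Q = m P := by
  obtain ⟨s, hs, rfl⟩ := hQ
  exact hm s hs P

omit [Field k] in
private theorem HypG_orb_sub (G : Subgroup (Equiv.Perm (OnePoint k))) (m : OnePoint k → ℕ)
    (hm : ∀ s ∈ G, ∀ P, m (s P) = m P) {P : OnePoint k} (hP : m P ≠ 0) :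
    orb G P ⊆ {P | m P ≠ 0} := by
  intro Q hQ
  show m Q ≠ 0
  rw [HypG_orb_eq G m hm hQ]
  exact hP

omit [Field k] in
private theorem HypG_orb_sum (G : Subgroup (Equiv.Perm (OnePoint k))) (m : OnePoint k → ℕ)
    (hm : ∀ s ∈ G, ∀ P, m (s P) = m P) {P : OnePoint k} (h1 : (orb G P).Finite) :
    ∑ Q ∈ h1.toFinset, (m Q + 1) = Nat.card (orb G P) * (m P + 1) := by
  rw [Finset.sum_congr rfl (g := fun _ => m P + 1) fun Q hQ => by
    rw [HypG_orb_eq G m hm ((Set.Finite.mem_toFinset _).1 hQ)], Finset.sum_const, smul_eq_mul,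
    Nat.card_coe_set_eq, Set.ncard_eq_toFinset_card _ h1]

theorem group_bound2 [IsAlgClosed k] [CharP k 2] (G : Subgroup (Equiv.Perm (OnePoint k)))
    (hG : MobGroup G) (m : OnePoint k → ℕ) (hm : ∀ s ∈ G, ∀ P, m (s P) = m P)
    (hf : {P | m P ≠ 0}.Finite) {g : ℕ} (hg : Odd g) (hodd : ∀ P, m P ≠ 0 → Odd (m P))
    (hsum : ∑ᶠ P : OnePoint k, (if m P = 0 then 0 else m P + 1) = 2 * g + 2)
    (ht : ∀ P, m P ≠ 0 → ∀ s ∈ stab G P, s ^ (m P) ∈ uni G P)
    (hc : ∀ P, m P ≠ 0 → (∀ Q, m Q ≠ 0 → Q = P) → ∀ s ∈ uni G P, s = 1) :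
    Finite G ∧ (Nat.card G < 2 * g + 2 ∨ ∃ q c j : ℕ, 4 ≤ q ∧ q = 2 ^ j ∧
      2 * g = (q - 1) * (c * (q + 1) + 1) ∧ Nat.card G = (q + 1) * (q * (q - 1))) := by
  by_cases htame : ∃ P, m P ≠ 0 ∧ ∀ s ∈ uni G P, s = 1
  · obtain ⟨P, hP, hu⟩ := htame
    obtain ⟨h1, h2⟩ := bound_tame G hG m hm hf hsum hP (ht P hP) hu
    exact ⟨h1, Or.inl h2⟩
  push Not at htame
  have hsum' := hsum
  rw [HypG_sum m hf] at hsum'
  -- `B` is not empty
  obtain ⟨P, hP⟩ : ∃ P, m P ≠ 0 := by
    by_contra hcon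
    push Not at hcon
    have h0 : hf.toFinset = ∅ := by
      ext Q
      rw [Set.Finite.mem_toFinset]
      constructor
      · intro h
        exact absurd (hcon Q) h
      · intro h
        exact absurd h (Finset.notMem_empty Q)
    rw [h0, Finset.sum_empty] at hsum'
    omega
  obtain ⟨s, hs, hs1⟩ := htame P hP
  have hfix : ∀ Q, s Q = Q ↔ Q = P := by
    rcases hs.2 with h | h
    · exact absurd h hs1
    · exact h
  obtain ⟨Q, hQ, hQP⟩ : ∃ Q, m Q ≠ 0 ∧ Q ≠ P := by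
    by_contra hcon
    push Not at hcon
    exact hs1 (hc P hP hcon s hs)
  have hsQ : s Q ≠ Q := fun h => hQP ((hfix Q).1 h)
  have hsQP : s Q ≠ P := by
    intro h
    have h2 : s P = P := (hfix P).2 rfl
    exact hQP (s.injective (h.trans h2.symm))
  have hsQB : m (s Q) ≠ 0 := by
    rw [hm s hs.1 Q]
    exact hQ
  have h3 : 3 ≤ Nat.card {P | m P ≠ 0} := by
    rw [Nat.card_coe_set_eq]
    have := (Set.two_lt_ncard_iff hf).2 ⟨P, Q, s Q, hP, hQ, hsQB, Ne.symm hQP, Ne.symm hsQP,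
      Ne.symm hsQ⟩
    omega
  obtain ⟨hfin, -⟩ := mob_finite G hG {P | m P ≠ 0} hf h3 fun t ht' R hR => by
    show m (t R) ≠ 0
    rw [hm t ht' R]
    exact hR
  refine ⟨hfin, ?_⟩
  have hB : {P | m P ≠ 0} = orb G P := by
    refine Set.Subset.antisymm ?_ (HypG_orb_sub G m hm hP)
    intro R hR
    exact one_wild G hG ⟨s, hs, hs1⟩ (htame R hR)
  obtain ⟨h1, hmul⟩ := card_orb_mul G P
  have hn : Nat.card (orb G P) * (m P + 1) = 2 * g + 2 := by
    rw [← HypG_orb_sum G m hm h1, ← hsum']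
    refine Finset.sum_congr ?_ fun _ _ => rfl
    ext R
    rw [Set.Finite.mem_toFinset, Set.Finite.mem_toFinset, hB]
  have hn3 : 3 ≤ Nat.card (orb G P) := by
    rw [← hB]
    exact h3
  obtain ⟨q, a, hq, ha, hq2, ⟨j, hj⟩, haodd, hcase, -⟩ := wild_struct G hG ⟨s, hs, hs1⟩
  rw [← ha] at hn hn3 hmul
  rcases hcase with h | h | ⟨h, hst⟩
  · -- `q = 2`
    left
    obtain ⟨m', hm1, hm2⟩ := card_stab G hG P
    rw [← hq, h] at hm1 hm2
    have hm3 : m' = 1 := by
      have : m' ∣ 1 := hm2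
      exact Nat.dvd_one.1 this
    rw [hm3] at hm1
    rw [hm1] at hmul
    obtain ⟨t, hmt⟩ := hodd P hP
    obtain ⟨u, hu⟩ := hg
    obtain ⟨v, hv⟩ := haodd
    have h4 : a * (t + 1) = g + 1 := by
      have h5 : 2 * (a * (t + 1)) = 2 * (g + 1) := by
        calc 2 * (a * (t + 1)) = a * (m P + 1) := by rw [hmt]; ring
          _ = 2 * (g + 1) := by rw [hn]; ring
      omega
    have h6 : 2 ≤ t + 1 := by
      by_contra h7
      have h8 : t = 0 := by omega
      rw [h8] at h4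
      omega
    have h9 : a * 2 ≤ a * (t + 1) := Nat.mul_le_mul_left _ h6
    omega
  · omega
  · -- `a = q + 1`
    by_cases hq4 : q = 2
    · left
      obtain ⟨m', hm1, hm2⟩ := card_stab G hG P
      rw [← hq, hq4] at hm1 hm2
      have hm3 : m' = 1 := by
        have : m' ∣ 1 := hm2
        exact Nat.dvd_one.1 this
      rw [hm3] at hm1
      rw [hm1] at hmul
      obtain ⟨t, hmt⟩ := hodd P hP
      obtain ⟨u, hu⟩ := hg
      obtain ⟨v, hv⟩ := haodd
      have h4 : a * (t + 1) = g + 1 := by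
        have h5 : 2 * (a * (t + 1)) = 2 * (g + 1) := by
          calc 2 * (a * (t + 1)) = a * (m P + 1) := by rw [hmt]; ring
            _ = 2 * (g + 1) := by rw [hn]; ring
        omega
      have h6 : 2 ≤ t + 1 := by
        by_contra h7
        have h8 : t = 0 := by omega
        rw [h8] at h4
        omega
      have h9 : a * 2 ≤ a * (t + 1) := Nat.mul_le_mul_left _ h6
      omega
    · right
      have hq' : 4 ≤ q := by
        rcases Nat.lt_or_ge j 2 with hj2 | hj2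
        · have : j = 0 ∨ j = 1 := by omega
          rcases this with h0 | h0
          · rw [h0, pow_zero] at hj
            omega
          · rw [h0, pow_one] at hj
            exact absurd hj hq4
        · rw [hj]
          calc 4 = 2 ^ 2 := by norm_num
            _ ≤ 2 ^ j := Nat.pow_le_pow_right (by norm_num) hj2
      obtain ⟨c, hcc⟩ := stab_dvd G hG P (m := m P) (m' := q - 1) (ht P hP) (by rw [← hq]; exact hst)
      refine ⟨q, c, j, hq', hj, ?_, ?_⟩
      · obtain ⟨r, hr⟩ : ∃ r, q = r + 1 := ⟨q - 1, by omega⟩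
        rw [hcc, h, hr] at hn
        rw [hr]
        simp only [Nat.add_sub_cancel] at hn ⊢
        have h10 : (r + 1 + 1) * (r * c + 1) = r * (c * (r + 1 + 1) + 1) + 2 := by ring
        omega
      · rw [← hmul, h, hst]

end Pool.Agent.Helper22.HE
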