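import Mathlib

/-!
MP_143e28_ag, project HE (helper22): the arithmetic of the orbit lengths in characteristic 2 (pure arithmetic; compare
`orbit_arith` in `Helper28.HA.B5`, whose private lemmas may be copied).

`c = #G`, `n i` orbit lengths, `q i = #uni`, `m i = #stab / #uni`; `hb` is Burnside.
`orbit_arith2`: let `a'` = number of the `i` with `q i ≥ 2` (so `a' ≥ 1`), `b` = number of the others (`q i = 1`).  As `2 n i ≤ c`:
`b c / 2 ≥ ∑_(q i = 1) n i = (a' + b - 2) c + 2 + ∑_(q i ≥ 2) n i (q i - 2)`, so `a' + b / 2 < 2`: `a' = 1`, `b ≤ 1`.  Let `a = n w`, `q = q w`,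
`m = m w`.  `b = 0`: `c = a (q - 2) + 2 = a q m`, so `a (q (m - 1) + 2) = 2`: `m = 1`, `a = 1`.  `b = 1`, `R = {w, t}`:
`n t = (q - 2) a + 2`.  Let `q ≠ 2`, so `q ≥ 4` (a power of 2); `a = 1` modulo `q`; `n t` divides `c = a q m`, so `n t / 2 = ((q - 2) / 2) a + 1`
divides `a ((q / 2) m)` and is prime to `a`, so it divides `(q / 2) m`, `m ≤ q - 1`: `(q - 2) a + 2 ≤ q (q - 1)`, `a ≤ q + 1`:
`a = 1` or `a = q + 1`; in the last case `q (q - 1) / 2` divides `(q / 2) m`: `m = q - 1`.
`orbit_tame2`: `∑ n i ≤ R.card * c / 3`, so `R.card < 3`; `R.card = 2`: `∑ n i = 2`; `R.card = 1`: `n = 2 - c`.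
-/

set_option autoImplicit false

namespace Pool.Agent.Helper22.HE

theorem orbit_arith2 {ι : Type*} [DecidableEq ι] (R : Finset ι) (c : ℕ) (n q m : ι → ℕ)
    (hn : ∀ i ∈ R, 0 < n i) (hc : ∀ i ∈ R, n i * (q i * m i) = c) (h2 : ∀ i ∈ R, 2 ≤ q i * m i)
    (hq : ∀ i ∈ R, ∃ j, q i = 2 ^ j) (hm : ∀ i ∈ R, m i ∣ q i - 1) (hqn : ∀ i ∈ R, q i ∣ n i - 1)
    (hb : ∑ i ∈ R, (n i : ℤ) * (2 - q i) = ((R.card : ℤ) - 2) * c + 2)
    {w : ι} (hw : w ∈ R) (hw2 : 2 ≤ q w) :
    (R = {w} ∧ n w = 1) ∨ ∃ t ∈ R, t ≠ w ∧ R = {w, t} ∧ q t = 1 ∧ n t = (q w - 2) * n w + 2 ∧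
      (q w = 2 ∨ n w = 1 ∨ (n w = q w + 1 ∧ m w = q w - 1)) := by
  have hq1 : ∀ i ∈ R, q i ≠ 1 → 2 ≤ q i := by
    intro i hi h
    obtain ⟨j, hj⟩ := hq i hi
    have hpos : 0 < q i := by
      rw [hj]
      exact pow_pos (by norm_num) _
    omega
  have hhalf : ∀ i ∈ R, q i = 1 → 2 * n i ≤ c := by
    intro i hi h
    have h1 := hc i hi
    have h3 := h2 i hi
    calc 2 * n i = n i * 2 := by ring
      _ ≤ n i * (q i * m i) := Nat.mul_le_mul_left _ h3
      _ = c := h1
  have hcpos : 0 < c := by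
    rw [← hc w hw]
    exact Nat.mul_pos (hn w hw) (by have := h2 w hw; omega)
  have hmpos : 0 < m w := by
    rcases Nat.eq_zero_or_pos (m w) with h | h
    · have := h2 w hw
      rw [h] at this
      omega
    · exact h
  have hcard : (R.filter (fun i => q i = 1)).card + (R.filter (fun i => ¬ q i = 1)).card = R.card :=
    Finset.card_filter_add_card_filter_not _
  have hkey : 2 * (R.filter (fun i => ¬ q i = 1)).card + (R.filter (fun i => q i = 1)).card ≤ 3 := by
    have h1 : ∑ i ∈ R, 2 * ((n i : ℤ) * (2 - q i)) ≤ ∑ i ∈ R, (if q i = 1 then (c : ℤ) else 0) := by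
      refine Finset.sum_le_sum fun i hi => ?_
      split_ifs with h
      · have := hhalf i hi h
        rw [h]
        push_cast
        have h4 : (2 : ℤ) * n i ≤ c := by exact_mod_cast this
        linarith
      · have h3 : (2 : ℤ) ≤ q i := by exact_mod_cast (hq1 i hi h)
        have h4 : (0 : ℤ) ≤ n i := by positivity
        nlinarith
    rw [← Finset.mul_sum, hb, ← Finset.sum_filter, Finset.sum_const, nsmul_eq_mul, ← hcard] at h1
    push_cast at h1
    by_contra h5
    push Not at h5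
    have h6 : (4 : ℤ) ≤ 2 * ((R.filter (fun i => ¬ q i = 1)).card : ℤ)
        + ((R.filter (fun i => q i = 1)).card : ℤ) := by exact_mod_cast h5
    have h7 : (0 : ℤ) < c := by exact_mod_cast hcpos
    nlinarith
  have hwf : w ∈ R.filter (fun i => ¬ q i = 1) := Finset.mem_filter.2 ⟨hw, by omega⟩
  have hApos : 0 < (R.filter (fun i => ¬ q i = 1)).card := Finset.card_pos.2 ⟨w, hwf⟩
  have hA1 : (R.filter (fun i => ¬ q i = 1)).card = 1 := by omega
  have honly : ∀ i ∈ R, i ≠ w → q i = 1 := by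
    intro i hi hiw
    by_contra h
    have h5 : i ∈ R.filter (fun i => ¬ q i = 1) := Finset.mem_filter.2 ⟨hi, h⟩
    exact hiw (Finset.card_le_one.1 hA1.le i h5 w hwf)
  have hR2 : R.card ≤ 2 := by omega
  rcases Nat.lt_or_ge R.card 2 with hRlt | hRge
  · -- only the wild orbit
    left
    have hR1 : R.card ≤ 1 := by omega
    have hRw : R = {w} := by
      apply Finset.Subset.antisymm
      · intro i hi
        rw [Finset.mem_singleton]
        exact Finset.card_le_one.1 hR1 i hi w hw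
      · intro i hi
        rw [Finset.mem_singleton] at hi
        rw [hi]
        exact hw
    refine ⟨hRw, ?_⟩
    have hc1 := hc w hw
    have hb1 : (n w : ℤ) * (2 - q w) = -(c : ℤ) + 2 := by
      have := hb
      rw [hRw, Finset.sum_singleton, Finset.card_singleton] at this
      push_cast at this
      linarith
    have hc2 : (n w : ℤ) * (q w * m w) = c := by exact_mod_cast hc1
    have hnw := hn w hw
    have hn1 : (1 : ℤ) ≤ n w := by exact_mod_cast hnw
    have hm1 : (1 : ℤ) ≤ m w := by exact_mod_cast hmpos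
    have hq2 : (2 : ℤ) ≤ q w := by exact_mod_cast hw2
    have h9 : (n w : ℤ) * (2 + q w * (m w - 1)) = 2 := by linarith
    have h10 : (0 : ℤ) ≤ (q w : ℤ) * (m w - 1) := mul_nonneg (by linarith) (by linarith)
    have h11 : (n w : ℤ) ≤ 1 := by nlinarith
    have h12 : n w ≤ 1 := by exact_mod_cast h11
    omega
  · right
    have hRc2 : R.card = 2 := le_antisymm hR2 hRge
    have hers : (R.erase w).card = 1 := by rw [Finset.card_erase_of_mem hw, hRc2]
    obtain ⟨t, ht⟩ := Finset.card_eq_one.1 hers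
    have htm : t ∈ R ∧ t ≠ w := by
      have : t ∈ R.erase w := by rw [ht]; simp
      exact ⟨Finset.mem_of_mem_erase this, Finset.ne_of_mem_erase this⟩
    obtain ⟨htR, htw⟩ := htm
    have hqt : q t = 1 := honly t htR htw
    have hRe : R = insert w {t} := by rw [← ht, Finset.insert_erase hw]
    have hwnt : w ∉ ({t} : Finset ι) := by
      rw [Finset.mem_singleton]
      exact fun h => htw h.symm
    have hb2 : (n w : ℤ) * (2 - q w) + n t = 2 := by
      have := hb
      rw [hRc2] at this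
      rw [hRe, Finset.sum_insert hwnt, Finset.sum_singleton, hqt] at this
      push_cast at this
      linarith
    obtain ⟨r, hr⟩ : ∃ r, q w = r + 2 := ⟨q w - 2, by omega⟩
    have hnt : n t = (q w - 2) * n w + 2 := by
      have h15 : (n t : ℤ) = (((q w - 2) * n w + 2 : ℕ) : ℤ) := by
        rw [hr, Nat.add_sub_cancel]
        rw [hr] at hb2
        push_cast at hb2 ⊢
        linarith
      exact_mod_cast h15
    refine ⟨t, htR, htw, hRe, hqt, hnt, ?_⟩
    by_cases hq2 : q w = 2
    · exact Or.inl hq2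
    right
    -- `q w = 2 h`
    obtain ⟨h, hh, hh2⟩ : ∃ h, q w = 2 * h ∧ 2 ≤ h := by
      obtain ⟨j, hj⟩ := hq w hw
      rcases j with - | - | j
      · rw [hj] at hw2
        norm_num at hw2
      · rw [hj] at hq2
        norm_num at hq2
      · refine ⟨2 ^ (j + 1), by rw [hj]; ring, ?_⟩
        calc 2 = 2 ^ 1 := by norm_num
          _ ≤ 2 ^ (j + 1) := Nat.pow_le_pow_right (by norm_num) (by omega)
    obtain ⟨s, hs⟩ := hqn w hw
    have hnw : n w = 1 + q w * s := by
      have := hn w hw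
      omega
    obtain ⟨g, rfl⟩ : ∃ g, h = g + 1 := ⟨h - 1, by omega⟩
    have hnt2 : n t = 2 * (g * n w + 1) := by
      rw [hnt, hh]
      have : 2 * (g + 1) - 2 = 2 * g := by omega
      rw [this]
      ring
    have hdv : g * n w + 1 ∣ n w * ((g + 1) * m w) := by
      have h17 : 2 * (g * n w + 1) ∣ 2 * (n w * ((g + 1) * m w)) := by
        have h18 : 2 * (n w * ((g + 1) * m w)) = c := by
          rw [← hc w hw, hh]
          ring
        rw [h18, ← hc t htR, hqt, ← hnt2]
        exact Dvd.intro _ rfl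
      exact Nat.dvd_of_mul_dvd_mul_left (by norm_num) h17
    have hcop : Nat.Coprime (g * n w + 1) (n w) := by
      rw [Nat.coprime_mul_right_add_left]
      exact Nat.coprime_one_left _
    have hdv2 : g * n w + 1 ∣ (g + 1) * m w := hcop.dvd_of_dvd_mul_left hdv
    have hmq : m w ∣ 2 * g + 1 := by
      have := hm w hw
      rwa [hh, show 2 * (g + 1) - 1 = 2 * g + 1 by omega] at this
    have hmle : m w ≤ 2 * g + 1 := Nat.le_of_dvd (by omega) hmq
    have hle : g * n w + 1 ≤ (g + 1) * (2 * g + 1) :=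
      (Nat.le_of_dvd (Nat.mul_pos (by omega) hmpos) hdv2).trans (Nat.mul_le_mul_left _ hmle)
    have hle2 : n w ≤ 2 * g + 3 := by
      by_contra hcon
      push Not at hcon
      have h20 : g * (2 * g + 4) ≤ g * n w := Nat.mul_le_mul_left _ hcon
      nlinarith
    have hs1 : s ≤ 1 := by
      by_contra hcon
      push Not at hcon
      have h21 : q w * 2 ≤ q w * s := Nat.mul_le_mul_left _ hcon
      omega
    rcases Nat.eq_zero_or_pos s with hs0 | hs0
    · left
      rw [hnw, hs0, mul_zero, add_zero]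
    · right
      have hs2 : s = 1 := by omega
      have hnw2 : n w = 2 * g + 3 := by
        rw [hnw, hs2, hh]
        ring
      refine ⟨by omega, ?_⟩
      rw [hnw2] at hdv2
      have h22 : g * (2 * g + 3) + 1 = (g + 1) * (2 * g + 1) := by ring
      rw [h22] at hdv2
      have h23 : 2 * g + 1 ∣ m w := Nat.dvd_of_mul_dvd_mul_left (by omega) hdv2
      have h24 := Nat.dvd_antisymm hmq h23
      omega

theorem orbit_tame2 {ι : Type*} (R : Finset ι) (c : ℕ) (n m : ι → ℕ) (hn : ∀ i ∈ R, 0 < n i)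
    (hc : ∀ i ∈ R, n i * m i = c) (h3 : ∀ i ∈ R, 3 ≤ m i)
    (hb : ∑ i ∈ R, (n i : ℤ) = ((R.card : ℤ) - 2) * c + 2) : ∑ i ∈ R, n i ≤ 2 := by
  have h1 : ∀ i ∈ R, (3 : ℤ) * n i ≤ c := by
    intro i hi
    have h4 : 3 * n i ≤ c := by
      calc 3 * n i = n i * 3 := by ring
        _ ≤ n i * m i := Nat.mul_le_mul_left _ (h3 i hi)
        _ = c := hc i hi
    exact_mod_cast h4
  have h5 : 3 * ∑ i ∈ R, (n i : ℤ) ≤ (R.card : ℤ) * c := by
    rw [Finset.mul_sum]
    refine (Finset.sum_le_sum h1).trans (le_of_eq ?_)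
    rw [Finset.sum_const, nsmul_eq_mul]
  rw [hb] at h5
  have hc0 : (0 : ℤ) ≤ c := by positivity
  have h6 : (R.card : ℤ) ≤ 2 := by
    by_contra hcon
    push Not at hcon
    have h7 : (3 : ℤ) ≤ R.card := by omega
    nlinarith
  have h8 : ∑ i ∈ R, (n i : ℤ) ≤ 2 := by
    rw [hb]
    have : ((R.card : ℤ) - 2) * c ≤ 0 := mul_nonpos_of_nonpos_of_nonneg (by linarith) hc0
    linarith
  exact_mod_cast h8

end Pool.Agent.Helper22.HE
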