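import Pool.Agent.Helper22.HE.OrbA
import Pool.Agent.Helper22.HB.Wild
import Pool.Agent.Helper28.HA.B6

/-!
MP_143e28_ag, project HE (helper22): finite groups of Moebius transformations in characteristic 2.

`burnside` (`Helper28.HA.B4`) gives the representatives `R` of the orbits of the points with nontrivial stabilizer; `card_uni` (p = 2),
`card_stab`, `card_orb_mul`, `uni_dvd` (`Helper28.HA.B2, B3`) give the hypotheses of `orbit_arith2` (see the proof of `stab_bound` in
`Helper28.HA.B6` and of `one_wild` in `Helper22.HB.Wild`).  `P` may be replaced by the element of `R` in its orbit (`Wild_conj`,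
`B6_uni_conj`, `B6_orb_symm`).  Odd `a`: `q ∣ a - 1`.
`tame_struct`: all `#uni = 1`; `no_wild` (`Helper28.HA.B6`): `#G` is odd, so the stabilizers of the points of `R` have odd orders `≥ 3`;
`orbit_tame2`; `B` is contained in the union of the orbits of the elements of `R`.
-/

set_option autoImplicit false

namespace Pool.Agent.Helper22.HE

open Polynomial OnePoint Pool.Agent.Helper28.HA Pool.Agent.Helper22.HB

variable {k : Type*} [Field k]

omit [Field k] in
private theorem Struct_orb_eq (G : Subgroup (Equiv.Perm (OnePoint k))) {P Q : OnePoint k}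
    (h : Q ∈ orb G P) : orb G Q = orb G P :=
  Set.Subset.antisymm (fun _ hx => Wild_orb_trans G h hx)
    (fun _ hx => Wild_orb_trans G (Wild_orb_symm G h) hx)

private theorem Struct_orb_pos (G : Subgroup (Equiv.Perm (OnePoint k))) [Finite G]
    (P : OnePoint k) : 0 < Nat.card (orb G P) := by
  have : Finite (orb G P) := (card_orb_mul G P).1
  have : Nonempty (orb G P) := ⟨⟨P, 1, G.one_mem, rfl⟩⟩
  exact Nat.card_pos

private theorem Struct_stab_eq (G : Subgroup (Equiv.Perm (OnePoint k))) [Finite G]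
    {P Q : OnePoint k} (h : Q ∈ orb G P) : Nat.card (stab G Q) = Nat.card (stab G P) := by
  have h1 := (card_orb_mul G P).2
  have h2 := (card_orb_mul G Q).2
  rw [Struct_orb_eq G h, ← h1] at h2
  exact Nat.eq_of_mul_eq_mul_left (Struct_orb_pos G P) h2

private theorem Struct_uni_eq (G : Subgroup (Equiv.Perm (OnePoint k))) [Finite G]
    {P Q : OnePoint k} (h : Q ∈ orb G P) : Nat.card (uni G Q) = Nat.card (uni G P) :=
  le_antisymm (B6_uni_conj G h) (B6_uni_conj G (Wild_orb_symm G h))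

theorem wild_struct [IsAlgClosed k] [CharP k 2] (G : Subgroup (Equiv.Perm (OnePoint k))) [Finite G]
    (hG : MobGroup G) {P : OnePoint k} (hP : ∃ s ∈ uni G P, s ≠ 1) :
    ∃ q a : ℕ, q = Nat.card (uni G P) ∧ a = Nat.card (orb G P) ∧ 2 ≤ q ∧ (∃ j, q = 2 ^ j) ∧ Odd a ∧
      (q = 2 ∨ a = 1 ∨ (a = q + 1 ∧ Nat.card (stab G P) = q * (q - 1))) ∧
      ∀ Q, 2 ≤ Nat.card (stab G Q) → Q ∉ orb G P → Nat.card (orb G Q) = (q - 2) * a + 2 ∧
        ∀ Q', 2 ≤ Nat.card (stab G Q') → Q' ∉ orb G P → Q' ∈ orb G Q := by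
  classical
  obtain ⟨R, hR1, hR2, hR3, hR4⟩ := burnside G hG
  choose m hm1 hm2 using fun P => card_stab G hG P
  obtain ⟨W, hW, hPW⟩ := hR3 P (Wild_stab_two G hP)
  have horb : orb G P = orb G W := Struct_orb_eq G hPW
  have huni : Nat.card (uni G P) = Nat.card (uni G W) := Struct_uni_eq G hPW
  have hst : Nat.card (stab G P) = Nat.card (stab G W) := Struct_stab_eq G hPW
  have hq2 : 2 ≤ Nat.card (uni G P) := Wild_uni_two G hP
  have hqp : ∃ j, Nat.card (uni G P) = 2 ^ j := card_uni 2 G hG P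
  have hodd : Odd (Nat.card (orb G P)) := by
    obtain ⟨j, hj⟩ := hqp
    have h1 : 2 ∣ Nat.card (uni G P) := by
      have hj0 : j ≠ 0 := by
        rintro rfl
        rw [hj] at hq2
        norm_num at hq2
      rw [hj]
      exact dvd_pow_self 2 hj0
    have h2 := h1.trans (uni_dvd G hG P)
    have h3 := Struct_orb_pos G P
    rw [Nat.odd_iff]
    omega
  have hres := orbit_arith2 R (Nat.card G) (fun P => Nat.card (orb G P))
    (fun P => Nat.card (uni G P)) m (fun P _ => Struct_orb_pos G P)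
    (fun P _ => by
      have := (card_orb_mul G P).2
      rwa [hm1 P] at this)
    (fun P hP => by
      have := hR1 P hP
      rwa [hm1 P] at this)
    (fun P _ => card_uni 2 G hG P) (fun P _ => hm2 P) (fun P _ => uni_dvd G hG P) hR4 hW
    (by rw [← huni]; exact hq2)
  refine ⟨_, _, rfl, rfl, hq2, hqp, hodd, ?_⟩
  rcases hres with ⟨hRW, hn1⟩ | ⟨t, ht, htW, hRW, hqt, hnt, hcase⟩
  · refine ⟨Or.inr (Or.inl (by rw [horb]; exact hn1)), ?_⟩
    intro Q hQ hQP
    exfalso
    obtain ⟨P0, hP0, hQP0⟩ := hR3 Q hQ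
    rw [hRW, Finset.mem_singleton] at hP0
    rw [hP0] at hQP0
    exact hQP (by rw [horb]; exact hQP0)
  · have hmem : ∀ Q, 2 ≤ Nat.card (stab G Q) → Q ∉ orb G P → Q ∈ orb G t := by
      intro Q hQ hQP
      obtain ⟨P0, hP0, hQP0⟩ := hR3 Q hQ
      rw [hRW, Finset.mem_insert, Finset.mem_singleton] at hP0
      rcases hP0 with rfl | rfl
      · exact absurd (by rw [horb]; exact hQP0) hQP
      · exact hQP0
    refine ⟨?_, ?_⟩
    · rw [huni, horb, hst, hm1 W]
      rcases hcase with h1 | h1 | ⟨h1, h2⟩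
      · exact Or.inl h1
      · exact Or.inr (Or.inl h1)
      · exact Or.inr (Or.inr ⟨h1, by rw [h2]⟩)
    · intro Q hQ hQP
      have hQt := hmem Q hQ hQP
      refine ⟨?_, ?_⟩
      · rw [Struct_orb_eq G hQt, huni, horb]
        exact hnt
      · intro Q' hQ' hQP'
        exact Wild_orb_trans G (Wild_orb_symm G hQt) (hmem Q' hQ' hQP')

theorem tame_struct [IsAlgClosed k] [CharP k 2] (G : Subgroup (Equiv.Perm (OnePoint k))) [Finite G]
    (hG : MobGroup G) (h : ∀ P, ∀ s ∈ uni G P, s = 1) (B : Set (OnePoint k))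
    (hB : ∀ Q ∈ B, 2 ≤ Nat.card (stab G Q)) : B.Finite ∧ Nat.card B ≤ 2 := by
  classical
  obtain ⟨R, hR1, hR2, hR3, hR4⟩ := burnside G hG
  have hu1 : ∀ P, Nat.card (uni G P) = 1 := by
    intro P
    rw [Nat.card_eq_one_iff_unique]
    exact ⟨⟨fun a b => Subtype.ext ((h P a.1 a.2).trans (h P b.1 b.2).symm)⟩,
      ⟨⟨1, Wild_uni_one G P⟩⟩⟩
  have hnd : ¬ 2 ∣ Nat.card G := no_wild 2 G hG hu1
  have hres := orbit_tame2 R (Nat.card G) (fun P => Nat.card (orb G P))
    (fun P => Nat.card (stab G P)) (fun P _ => Struct_orb_pos G P)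
    (fun P _ => (card_orb_mul G P).2)
    (fun P hP => by
      have h1 := hR1 P hP
      have h2 := (card_orb_mul G P).2
      have h3 : ¬ 2 ∣ Nat.card (stab G P) := fun h4 => hnd (by
        rw [← h2]
        exact Dvd.dvd.mul_left h4 _)
      show 3 ≤ Nat.card (stab G P)
      omega)
    (by
      rw [← hR4]
      refine Finset.sum_congr rfl fun P _ => ?_
      rw [hu1 P]
      norm_num)
  have hfin : ∀ P, (orb G P).Finite := fun P => (card_orb_mul G P).1
  have hsub : B ⊆ ((R.biUnion fun P => (hfin P).toFinset : Finset (OnePoint k)) :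
      Set (OnePoint k)) := by
    intro Q hQ
    obtain ⟨P, hP, hQP⟩ := hR3 Q (hB Q hQ)
    rw [Finset.mem_coe, Finset.mem_biUnion]
    exact ⟨P, hP, (hfin P).mem_toFinset.2 hQP⟩
  have hBf : B.Finite := (Finset.finite_toSet _).subset hsub
  refine ⟨hBf, ?_⟩
  rw [Nat.card_coe_set_eq]
  refine (Set.ncard_le_ncard hsub (Finset.finite_toSet _)).trans ?_
  rw [Set.ncard_coe_finset]
  refine Finset.card_biUnion_le.trans (le_trans ?_ hres)
  refine Finset.sum_le_sum fun P _ => ?_
  rw [Nat.card_coe_set_eq, Set.ncard_eq_toFinset_card _ (hfin P)]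

end Pool.Agent.Helper22.HE
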